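import Pool.Agent.Helper11x.PT.Close
import Pool.Agent.H622R2.Exp.A6

/-!
# The circuit which amplifies a small rotation
-/

set_option autoImplicit false

namespace Pool.Agent.Helper11x.PT

open Pool.Agent.NPC Pool.Agent.H622R2 Pool.Agent.H620R2.Gauge Pool.Agent.H622R2.Exp Finset
open Pool.Agent.H9x.Q (Basis bit ket ket_norm put bit_put_self bit_put_ne put_put put_bit)
open Pool.Agent.R562.QH (nrm nrm_sq nrm_nonneg nrm_add_le nrm_congr)
open Pool.Agent.H10x.QW (rd wr IsState rd_wr wr_wr wr_rd bit_wr sum_xch sum_wr unitary_norm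
  rd_put wr_put poly_had poly_cnot)

/-! ### The parameters for the inputs of length `n` -/

/-- the size of the angle -/
def ti (n : ℕ) : ℕ := Nat.log 2 n / 8

/-- the number of the rotations -/
def sh (n : ℕ) : ℕ := 2 ^ (8 * ti n)

/-- the number of the qubits of the rotation -/
def dm (n : ℕ) : ℕ := n - sh n

theorem sh_eq (n : ℕ) : sh n = 256 ^ ti n := by
  unfold sh
  rw [pow_mul]
  norm_num

theorem sh_le (n : ℕ) : sh n ≤ n + 1 := by
  unfold sh ti
  rcases Nat.eq_zero_or_pos n with h | h
  · subst h
    simp
  · have h1 : 2 ^ (8 * (Nat.log 2 n / 8)) ≤ 2 ^ Nat.log 2 n :=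
      Nat.pow_le_pow_right (by norm_num) (by omega)
    have h2 : 2 ^ Nat.log 2 n ≤ n := Nat.pow_log_le_self 2 (by omega)
    omega

theorem dm_le (n : ℕ) : dm n ≤ n := Nat.sub_le _ _

theorem ti_add {t m : ℕ} (hm : m < 255 * 256 ^ t) : ti (256 ^ t + m) = t := by
  have h1 : 8 * t ≤ Nat.log 2 (256 ^ t + m) := by
    refine Nat.le_log_of_pow_le (by norm_num) ?_
    rw [pow_mul]
    norm_num
  have h2 : Nat.log 2 (256 ^ t + m) < 8 * t + 8 := by
    refine Nat.log_lt_of_lt_pow (by positivity) ?_
    rw [pow_add, pow_mul]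
    norm_num
    omega
  unfold ti
  omega

theorem dm_add {t m : ℕ} (hm : m < 255 * 256 ^ t) : dm (256 ^ t + m) = m := by
  unfold dm
  rw [sh_eq, ti_add hm]
  omega

/-- the qubits of the index and of the witness -/
def ll (n : ℕ) : List ℕ :=
  List.range (dm n / 2) ++ (List.range (dm n - dm n / 2)).map (fun i => n + 1 + i)

theorem length_ll (n : ℕ) : (ll n).length = dm n := by
  simp [ll]; omega

theorem mem_ll {n i : ℕ} : i ∈ ll n ↔ i < dm n / 2 ∨ (n + 1 ≤ i ∧
    i < n + 1 + (dm n - dm n / 2)) := by
  unfold ll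
  rw [List.mem_append, List.mem_range, List.mem_map]
  refine or_congr_right ⟨?_, ?_⟩
  · rintro ⟨a, h1, rfl⟩
    rw [List.mem_range] at h1
    omega
  · rintro ⟨h1, h2⟩
    exact ⟨i - (n + 1), List.mem_range.2 (by omega), by omega⟩

theorem nodup_ll (n : ℕ) : (ll n).Nodup := by
  unfold ll
  rw [List.nodup_append]
  refine ⟨List.nodup_range, List.nodup_range.map fun a b h => by simpa using h, ?_⟩
  intro a ha b hb
  rw [List.mem_range] at ha
  rw [List.mem_map] at hb
  obtain ⟨c, _, rfl⟩ := hb
  have := dm_le n
  omega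

theorem get_ll_lt {n i : ℕ} (h : i < (ll n).length) (hi : i < dm n / 2) : (ll n)[i] = i := by
  unfold ll
  rw [List.getElem_append_left (by simpa using hi)]
  simp

theorem get_ll_ge {n i : ℕ} (h : i < (ll n).length) (hi : dm n / 2 ≤ i) :
    (ll n)[i] = n + 1 + (i - dm n / 2) := by
  unfold ll
  rw [List.getElem_append_right (by simpa using hi)]
  simp

/-- the circuit of the verifier -/
def vc (n : ℕ) : List Gate :=
  .std (.had (2 * n + 1)) :: (List.replicate (sh n) (.uni false (2 * n + 1) (ll n)) ++
    [.std (.had (2 * n + 1)), .std (.cnot (2 * n + 1) n)])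

theorem poly_std {α : Type} [TEnc α] {g : α → Pool.Agent.H9x.Q.Gate} (h : Poly g) :
    Poly (fun a => Gate.std (g a)) :=
  Poly.of_toT (f := fun a => Gate.std (g a)) (Poly.toT' (Poly.inl (γ := Bool × ℕ × List ℕ) h))

theorem poly_uni {α : Type} [TEnc α] (b : Bool) {c : α → ℕ} {l : α → List ℕ} (hc : Poly c)
    (hl : Poly l) : Poly (fun a => Gate.uni b (c a) (l a)) :=
  Poly.of_toT (f := fun a => Gate.uni b (c a) (l a)) (Poly.toT'
    (Poly.inr (β := Pool.Agent.H9x.Q.Gate) (Poly.pair (NPC.Poly.const b) (Poly.pair hc hl))))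

theorem uPoly_ti : UPoly (fun u : List Bool => 8 * ti u.length) := by
  have h1 := Pool.Agent.TH678.WP.uPoly_log (α := List Bool) (l := fun u => u) Poly.id
  have h2 : Poly (fun u : List Bool => 8 * ((Nat.log 2 u.length + 1 - 1) / 8)) :=
    Poly.mul (NPC.Poly.const 8) (Poly.div (Poly.sub h1.toPoly (NPC.Poly.const 1))
      (NPC.Poly.const 8))
  exact (UPoly.of_le h2 h1 fun u => by omega).congr fun u => by
    simp only [Nat.add_sub_cancel]
    rfl

theorem uPoly_sh : UPoly (fun u : List Bool => sh u.length) :=
  UPoly.of_le (Pool.Agent.H622R2.Exp.A6.poly_two_pow uPoly_ti) (UPoly.add (UPoly.length Poly.id) (UPoly.const 1))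
    fun u => sh_le _

theorem uPoly_dm : UPoly (fun u : List Bool => dm u.length) :=
  UPoly.of_le (Poly.sub (UPoly.length Poly.id).toPoly uPoly_sh.toPoly) (UPoly.length Poly.id)
    fun u => dm_le _

theorem poly_ll : Poly (fun u : List Bool => ll u.length) := by
  have h1 : Poly (fun u : List Bool => dm u.length / 2) :=
    Poly.div uPoly_dm.toPoly (NPC.Poly.const 2)
  have h2 : UPoly (fun u : List Bool => dm u.length / 2) :=
    UPoly.of_le h1 uPoly_dm fun u => Nat.div_le_self _ _
  have h3 : UPoly (fun u : List Bool => dm u.length - dm u.length / 2) :=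
    UPoly.of_le (Poly.sub uPoly_dm.toPoly h1) uPoly_dm fun u => Nat.sub_le _ _
  have hn : Poly (fun u : List Bool => u.length) := (UPoly.length Poly.id).toPoly
  exact Poly.append (UPoly.range h2) (NPC.Poly.map (UPoly.range h3)
    (Poly.add (Poly.add (hn.comp (Poly.fst Poly.id)) (NPC.Poly.const 1)) (Poly.snd Poly.id)))

theorem poly_had' {α : Type} [TEnc α] {q : α → ℕ} (h : Poly q) :
    Poly (fun a => Gate.std (.had (q a))) := poly_std (poly_had h)

theorem poly_cnot' {α : Type} [TEnc α] {q r : α → ℕ} (h : Poly q) (h' : Poly r) :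
    Poly (fun a => Gate.std (.cnot (q a) (r a))) := poly_std (poly_cnot h h')

set_option maxHeartbeats 400000 in
theorem poly_rep {α β : Type} [TEnc α] [TEnc β] {n : α → ℕ} {g : α → β} (hn : UPoly n)
    (hg : Poly g) : Poly (fun a => List.replicate (n a) (g a)) := by
  have h2 : Poly (fun a => (List.replicate (n a) ()).map (fun _ => g a)) :=
    NPC.Poly.map (F := fun a _ => g a) hn (hg.comp (Poly.fst Poly.id))
  exact h2.congr fun a => by simp

set_option maxHeartbeats 400000 in
theorem poly_vc : Poly (fun u : List Bool => vc u.length) := by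
  have hn : Poly (fun u : List Bool => u.length) := (UPoly.length Poly.id).toPoly
  have hc : Poly (fun u : List Bool => 2 * u.length + 1) :=
    Poly.add (Poly.mul (NPC.Poly.const 2) hn) (NPC.Poly.const 1)
  have h1 : Poly (fun u : List Bool => Gate.uni false (2 * u.length + 1) (ll u.length)) :=
    poly_uni false hc poly_ll
  have h3 := poly_rep uPoly_sh h1
  have h4 := poly_had' hc
  have h5 := poly_cnot' hc hn
  have h6 := Poly.cons h4 (Poly.append h3 (Poly.cons h4 (Poly.cons h5 (NPC.Poly.const []))))
  exact h6

/-- the verifier -/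
noncomputable def VF : Verifier where
  circ := vc
  poly := polyTime_bits poly_vc
  wit := Polynomial.X
  anc := 1

theorem wit_VF (n : ℕ) : VF.wit.eval n = n := by simp [VF]

theorem qubits_VF (n : ℕ) : VF.qubits n = 2 * n + 2 := by
  simp [VF, Verifier.qubits]; omega

variable {m : ℕ}

/-- the effect of the circuit, if the state is an eigenvector of the power of the operator -/
theorem run_vc {A : Oracle} {U : UOr} {n : ℕ} (hm : m = 2 * n + 2) (st : Basis m → ℂ)
    (θ : ℂ) (h0 : ∀ z, bit z (2 * n + 1) = true → st z = 0)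
    (hU : ∀ z : Basis m, ∑ w : Basis (ll n).length, (U.mat (ll n).length ^ sh n) (rd z (ll n)) w *
      st (wr z (ll n) w) = θ * st z) (z : Basis m) :
    run A U (vc n) st z =
      st (put (put z n (xor (bit z n) (bit z (2 * n + 1)))) (2 * n + 1) false) *
        ((1 + (if bit z (2 * n + 1) then -1 else 1) * θ) / 2) := by
  have hdn := dm_le n
  have hc : 2 * n + 1 ∉ ll n := by
    rw [mem_ll]
    omega
  have hlt : ∀ q ∈ ll n, q < m := by
    intro q hq
    rw [mem_ll] at hq
    omega
  have hcm : 2 * n + 1 < m := by omega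
  have hvc : vc n = .std (.had (2 * n + 1)) ::
    (List.replicate (sh n) (.uni false (2 * n + 1) (ll n)) ++
    [.std (.had (2 * n + 1)), .std (.cnot (2 * n + 1) n)]) := rfl
  rw [hvc]
  set c := 2 * n + 1 with hcdef
  have hr2 : (Real.sqrt 2 : ℂ) ≠ 0 := by
    rw [Ne, Complex.ofReal_eq_zero]
    positivity
  have hr : (Real.sqrt 2 : ℂ) * (Real.sqrt 2 : ℂ) = 2 := by
    rw [← Complex.ofReal_mul, Real.mul_self_sqrt (by norm_num)]
    norm_num
  -- after the first gate
  have e1 : ∀ z : Basis m, (Gate.std (.had c)).act A U st z = st (put z c false) / Real.sqrt 2 := by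
    intro z
    simp only [Gate.act, Pool.Agent.H9x.Q.Gate.act]
    rw [if_pos hcm, h0 (put z c true) (bit_put_self hcm true), mul_zero, add_zero]
  -- after the rotations
  set χ : Basis m → ℂ := run A U (List.replicate (sh n) (.uni false c (ll n)))
    ((Gate.std (.had c)).act A U st) with hχ
  have e2 : ∀ z : Basis m, χ z = (if bit z c then θ else 1) *
      (st (put z c false) / Real.sqrt 2) := by
    intro z
    rw [hχ, run_rep (nodup_ll n) hlt hc]
    by_cases hz : bit z c = true
    · rw [if_pos hz, if_pos hz]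
      have h1 := hU (put z c false)
      rw [rd_put hc] at h1
      rw [← mul_div_assoc, ← h1, sum_div]
      refine sum_congr rfl fun w _ => ?_
      rw [wr_put hc, e1]
      ring
    · rw [if_neg hz, if_neg hz, one_mul]
      exact e1 z
  have e3 : ∀ z : Basis m, (Gate.std (.had c)).act A U χ z = st (put z c false) *
        ((1 + (if bit z c then -1 else 1) * θ) / 2) := by
    intro z
    have h1 := e2 (put z c false)
    have h2 := e2 (put z c true)
    rw [bit_put_self hcm, put_put] at h1 h2
    have h3 : (Gate.std (.had c)).act A U χ z =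
      (χ (put z c false) + (if bit z c then -1 else 1) * χ (put z c true)) /
        (Real.sqrt 2 : ℂ) := by
      rw [show (Gate.std (.had c)).act A U χ z = (Pool.Agent.H9x.Q.Gate.had c).act A χ z from rfl]
      simp only [Pool.Agent.H9x.Q.Gate.act]
      rw [if_pos hcm]
    rw [h3, h1, h2]
    simp only [Bool.false_eq_true, if_false, if_true, one_mul]
    rw [← hr]
    field_simp
  have hne : c ≠ n := by omega
  have e4 : run A U (.std (.had c) :: (List.replicate (sh n) (.uni false c (ll n)) ++
      [.std (.had c), .std (.cnot c n)])) st z =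
      (Gate.std (.cnot c n)).act A U ((Gate.std (.had c)).act A U χ) z := by
    simp only [run]
    rw [run_append]
    rfl
  rw [e4]
  rw [show ∀ ψ : Basis m → ℂ, (Gate.std (.cnot c n)).act A U ψ z =
    ψ (put z n (xor (bit z n) (bit z c))) from fun ψ => by
      show (Pool.Agent.H9x.Q.Gate.cnot c n).act A ψ z = _
      simp only [Pool.Agent.H9x.Q.Gate.act]
      rw [if_neg hne]]
  rw [e3, bit_put_ne hne]

theorem start_zero {x : List Bool} {φ : Basis (VF.wit.eval x.length) → ℂ}
    {z : Basis (VF.qubits x.length)} (i : ℕ) (hi : i = x.length ∨ i = 2 * x.length + 1)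
    (hz : bit z i = true) : VF.start x φ z = 0 := by
  unfold Verifier.start
  rw [if_neg]
  intro h
  have h1 := wit_VF x.length
  have h2 := h i (by omega)
  rw [hz, List.getD_eq_default _ _ (by omega)] at h2
  exact absurd h2 (by simp)

/-- the state is not rotated: acceptance with probability zero -/
theorem acc_zero {A : Oracle} {U : UOr} {x : List Bool}
    {φ : Basis (VF.wit.eval x.length) → ℂ}
    (hU : ∀ z : Basis (VF.qubits x.length), ∑ w : Basis (ll x.length).length,
      (U.mat (ll x.length).length ^ sh x.length) (rd z (ll x.length)) w *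
        VF.start x φ (wr z (ll x.length) w) =
      VF.start x φ z) : VF.acc A U x φ = 0 := by
  unfold Verifier.acc
  refine sum_eq_zero fun z _ => ?_
  split_ifs with hz
  · have h1 : run A U (VF.circ x.length) (VF.start x φ) z = 0 := by
      have h2 := run_vc (A := A) (U := U) (qubits_VF x.length) (VF.start x φ) 1
        (fun z h => start_zero _ (Or.inr rfl) h) (fun z => by rw [hU z, one_mul]) z
      rw [show VF.circ x.length = vc x.length from rfl, h2]
      by_cases hc : bit z (2 * x.length + 1) = true
      · rw [if_pos hc]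
        norm_num
      · rw [Bool.not_eq_true] at hc
        rw [start_zero x.length (Or.inl rfl), zero_mul]
        rw [bit_put_ne (by omega), bit_put_self (by rw [qubits_VF]; omega), hz, hc]
        rfl
    rw [h1, norm_zero]
    norm_num
  · rfl

/-- the sign of the state is changed: acceptance with probability one -/
theorem acc_one {A : Oracle} {U : UOr} {x : List Bool}
    {φ : Basis (VF.wit.eval x.length) → ℂ} (hφ : IsState φ)
    (hU : ∀ z : Basis (VF.qubits x.length), ∑ w : Basis (ll x.length).length,
      (U.mat (ll x.length).length ^ sh x.length) (rd z (ll x.length)) w *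
        VF.start x φ (wr z (ll x.length) w) =
      - VF.start x φ z) : VF.acc A U x φ = 1 := by
  have h1 : VF.acc A U x φ =
      ∑ z, ‖run A U (VF.circ x.length) (VF.start x φ) z‖ ^ 2 := by
    unfold Verifier.acc
    refine sum_congr rfl fun z _ => ?_
    split_ifs with hz
    · rfl
    · rw [Bool.not_eq_true] at hz
      have h2 := run_vc (A := A) (U := U) (qubits_VF x.length) (VF.start x φ) (-1)
        (fun z h => start_zero _ (Or.inr rfl) h) (fun z => by rw [hU z, neg_one_mul]) z
      rw [show VF.circ x.length = vc x.length from rfl, h2]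
      by_cases hc : bit z (2 * x.length + 1) = true
      · rw [start_zero x.length (Or.inl rfl), zero_mul, norm_zero]
        · norm_num
        · rw [bit_put_ne (by omega), bit_put_self (by rw [qubits_VF]; omega), hz, hc]
          rfl
      · rw [if_neg hc]
        norm_num
  rw [h1, ← nrm_sq, nrm_run, nrm_start _ _ hφ]
  norm_num

end Pool.Agent.Helper11x.PT
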