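import Pool.Agent.Helper11x.PT.Rot

/-!
# Unitary oracles which are near each other
-/

set_option autoImplicit false

namespace Pool.Agent.Helper11x.PT

open Pool.Agent.NPC Pool.Agent.H620R2.Gauge Finset
open Pool.Agent.H9x.Q (Basis bit ket)
open Pool.Agent.R562.QH (nrm nrm_sq nrm_nonneg nrm_add_le nrm_congr)
open Pool.Agent.H10x.QW (rd wr IsState rd_wr wr_wr wr_rd bit_wr sum_xch sum_wr unitary_norm)

/-- the operators on `k` qubits differ by at most `η` -/
def ClAt (U U' : UOr) (k : ℕ) (η : ℝ) : Prop := ∀ v : Basis k → ℂ,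
  ∑ u, ‖∑ w, (U.mat k - U'.mat k) u w * v w‖ ^ 2 ≤ η ^ 2 * ∑ u, ‖v u‖ ^ 2

theorem ClAt.op {U U' : UOr} {k : ℕ} {η : ℝ} (h : ClAt U U' k η) (b : Bool) (v : Basis k → ℂ) :
    ∑ u, ‖∑ w, (U.op b k - U'.op b k) u w * v w‖ ^ 2 ≤ η ^ 2 * ∑ u, ‖v u‖ ^ 2 := by
  cases b
  · exact h v
  · have h1 : U.op true k - U'.op true k =
        star (U.mat k) * (-(U.mat k - U'.mat k) * star (U'.mat k)) := by
      have e1 : star (U.mat k) * U.mat k = 1 := Matrix.mem_unitaryGroup_iff'.1 (U.unitary k)
      have e2 : U'.mat k * star (U'.mat k) = 1 := Matrix.mem_unitaryGroup_iff.1 (U'.unitary k)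
      show star (U.mat k) - star (U'.mat k) = _
      rw [neg_sub, sub_mul, e2, mul_sub, mul_one, ← mul_assoc, e1, one_mul]
    have h2 : ∀ (M : Matrix (Basis k) (Basis k) ℂ) (v : Basis k → ℂ),
        (fun u => ∑ w, M u w * v w) = M.mulVec v := fun _ _ => rfl
    have h3 : ∑ u, ‖∑ w, (U.op true k - U'.op true k) u w * v w‖ ^ 2 =
        ∑ u, ‖∑ w, (U.mat k - U'.mat k) u w * (star (U'.mat k)).mulVec v w‖ ^ 2 := by
      rw [h1]
      have h4 := unitary_norm (Unitary.star_mem (U.unitary k))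
        ((-(U.mat k - U'.mat k) * star (U'.mat k)).mulVec v)
      have h5 : ∀ u, ∑ w, star (U.mat k) u w *
          (-(U.mat k - U'.mat k) * star (U'.mat k)).mulVec v w =
          ∑ w, (star (U.mat k) * (-(U.mat k - U'.mat k) * star (U'.mat k))) u w * v w := by
        intro u
        have := Matrix.mulVec_mulVec v (star (U.mat k))
          (-(U.mat k - U'.mat k) * star (U'.mat k))
        exact congrFun this u
      rw [← sum_congr rfl fun u _ => by rw [← h5 u], h4]
      refine sum_congr rfl fun u _ => ?_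
      have h6 := Matrix.mulVec_mulVec v (-(U.mat k - U'.mat k)) (star (U'.mat k))
      rw [← h6, Matrix.neg_mulVec, Pi.neg_apply, norm_neg]
      rfl
    rw [h3]
    refine (h _).trans (le_of_eq ?_)
    rw [← unitary_norm (Unitary.star_mem (U'.unitary k)) v]
    rfl

variable {m : ℕ}

/-- the gates differ by at most `η` -/
theorem ClAt.act {U U' : UOr} {l : List ℕ} {η : ℝ} (hη : 0 ≤ η) (h : ClAt U U' l.length η)
    (A : Oracle) (b : Bool) (c : ℕ) (ψ : Basis m → ℂ) :
    nrm ((Gate.uni b c l).act A U ψ - (Gate.uni b c l).act A U' ψ) ≤ η * nrm ψ := by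
  refine le_of_sq_le_sq ?_ (mul_nonneg hη (nrm_nonneg _))
  rw [mul_pow, nrm_sq, nrm_sq]
  by_cases hg : l.Nodup ∧ (∀ q ∈ l, q < m) ∧ c ∉ l
  · obtain ⟨h1, h2, h3⟩ := hg
    have key : (2 ^ l.length : ℝ) *
        ∑ z, ‖((Gate.uni b c l).act A U ψ - (Gate.uni b c l).act A U' ψ) z‖ ^ 2 ≤
        (2 ^ l.length : ℝ) * (η ^ 2 * ∑ z, ‖ψ z‖ ^ 2) := by
      rw [← sum_wr h1 h2, mul_left_comm, ← sum_wr h1 h2 (fun z => ‖ψ z‖ ^ 2), mul_sum]
      refine sum_le_sum fun z _ => ?_
      by_cases hz : bit z c = true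
      · refine le_trans (le_of_eq ?_) (h.op b (fun w => ψ (wr z l w)))
        refine sum_congr rfl fun w _ => ?_
        rw [Pi.sub_apply]
        simp only [Gate.act]
        rw [if_pos ⟨h1, h2, h3, by rw [bit_wr h3, hz]⟩,
          if_pos ⟨h1, h2, h3, by rw [bit_wr h3, hz]⟩, rd_wr h1 h2, ← sum_sub_distrib]
        congr 2
        refine sum_congr rfl fun w' _ => ?_
        rw [wr_wr, Matrix.sub_apply]
        ring
      · rw [sum_eq_zero]
        · exact mul_nonneg (sq_nonneg _) (sum_nonneg fun w _ => by positivity)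
        · intro w _
          rw [Pi.sub_apply]
          simp only [Gate.act]
          rw [if_neg, if_neg, sub_self, norm_zero]
          · norm_num
          · rintro ⟨_, _, _, h⟩
            rw [bit_wr h3] at h
            exact hz h
          · rintro ⟨_, _, _, h⟩
            rw [bit_wr h3] at h
            exact hz h
    exact le_of_mul_le_mul_left key (by positivity)
  · rw [sum_eq_zero]
    · exact mul_nonneg (sq_nonneg _) (sum_nonneg fun w _ => by positivity)
    · intro z _
      rw [Pi.sub_apply]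
      simp only [Gate.act]
      rw [if_neg fun h => hg ⟨h.1, h.2.1, h.2.2.1⟩, if_neg fun h => hg ⟨h.1, h.2.1, h.2.2.1⟩,
        sub_self, norm_zero]
      norm_num

/-- the difference of the acceptance probabilities for unitary oracles near each other -/
theorem acc_close (F : Verifier) (A : Oracle) {U U' : UOr} (x : List Bool)
    {φ : Basis (F.wit.eval x.length) → ℂ} (hφ : IsState φ) {η : ℝ} (hη : 0 ≤ η)
    (h : ∀ b c l, Gate.uni b c l ∈ F.circ x.length → ClAt U' U l.length η) :
    |F.acc A U' x φ - F.acc A U x φ| ≤ 2 * ((F.circ x.length).length * η) := by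
  refine acc_diff F A U U' x hφ fun C₁ g C₂ hC => ?_
  cases g with
  | std g =>
    have : (Gate.std g).act A U' (run A U C₁ (F.start x φ)) -
        (Gate.std g).act A U (run A U C₁ (F.start x φ)) = 0 := sub_self _
    rw [this, nrm_zero]
    exact hη
  | uni b c l =>
    refine (ClAt.act hη (h b c l (by rw [hC]; simp)) A b c _).trans (le_of_eq ?_)
    rw [nrm_run, nrm_start F x hφ, mul_one]

/-- near the identity -/
theorem Near.clAt {ε : ℕ → ℝ} {U U' : UOr} (h : Near ε U) {k : ℕ} (h' : U'.mat k = 1) :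
    ClAt U U' k (ε k) := by
  intro v
  refine le_trans (le_of_eq ?_) (h k v)
  refine sum_congr rfl fun u _ => ?_
  congr 2
  rw [h', sum_congr rfl fun w _ => by rw [Matrix.sub_apply, sub_mul], sum_sub_distrib]
  congr 1
  rw [Finset.sum_eq_single u, Matrix.one_apply_eq, one_mul]
  · intro w _ hw
    rw [Matrix.one_apply_ne (Ne.symm hw), zero_mul]
  · intro h
    exact absurd (mem_univ _) h

theorem ClAt.mono {U U' : UOr} {k : ℕ} {η η' : ℝ} (hη : 0 ≤ η) (h : ClAt U U' k η) (h' : η ≤ η') :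
    ClAt U U' k η' := fun v => (h v).trans
  (mul_le_mul_of_nonneg_right (pow_le_pow_left₀ hη h' 2) (sum_nonneg fun _ _ => by positivity))

end Pool.Agent.Helper11x.PT
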