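import Pool.Agent.H10x.QW.Num

/-!
# Quantum verifiers with a classical oracle and a unitary oracle near the identity
-/

set_option autoImplicit false

namespace Pool.Agent.Helper11x.PT

open Pool.Agent.NPC Pool.Agent.H620R2.Gauge Finset Filter
open Pool.Agent.H9x.Q (Basis bit ket)
open Pool.Agent.H10x.QW (rd wr IsState Alt)

/-- A unitary oracle: for every `k` a unitary operator on `k` qubits. -/
structure UOr : Type where
  /-- the operator on `k` qubits -/
  mat : (k : ℕ) → Matrix (Basis k) (Basis k) ℂ
  /-- it is unitary -/
  unitary : ∀ k, mat k ∈ Matrix.unitaryGroup (Basis k) ℂ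

/-- The operator on `k` qubits (`b = false`), or its inverse (`b = true`). -/
noncomputable def UOr.op (U : UOr) (b : Bool) (k : ℕ) : Matrix (Basis k) (Basis k) ℂ :=
  if b then star (U.mat k) else U.mat k

/-- For every `k`, the operator on `k` qubits differs from the identity by at most `ε k` (in the
operator norm, for `ε k ≥ 0`). -/
def Near (ε : ℕ → ℝ) (U : UOr) : Prop :=
  ∀ (k : ℕ) (v : Basis k → ℂ),
    ∑ u, ‖(∑ w, U.mat k u w * v w) - v u‖ ^ 2 ≤ ε k ^ 2 * ∑ u, ‖v u‖ ^ 2

/-- The function `ε` is exponentially small. -/
def ExpSmall (ε : ℕ → ℝ) : Prop :=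
  ∃ δ : ℝ, 0 < δ ∧ ∀ᶠ m : ℕ in atTop, ε m ≤ (2 : ℝ) ^ (-(δ * m))

/-- The gates: the gates of `H9x.Q` (Hadamard gate, phase gate `diag (1, exp (i π / 4))`,
controlled negation, and the gate of the classical oracle), and the gates of the unitary oracle which
apply the operator on `k` qubits, or its inverse, to the `k` qubits in the list `l` if the qubit `c`
is one. -/
inductive Gate : Type
  | std (g : Pool.Agent.H9x.Q.Gate) : Gate
  | uni (b : Bool) (c : ℕ) (l : List ℕ) : Gate

/-- a gate as structured data -/
def Gate.data : Gate → Pool.Agent.H9x.Q.Gate ⊕ (Bool × ℕ × List ℕ)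
  | .std g => .inl g
  | .uni b c l => .inr (b, c, l)

theorem Gate.data_injective : Function.Injective Gate.data := by
  intro a b h
  cases a <;> cases b <;> simp [Gate.data] at h <;> simp [h]

/-- Gates are coded as structured data. -/
instance : TEnc Gate := ⟨fun g => toT g.data, fun _ _ h => Gate.data_injective (TEnc.inj h)⟩

variable {m : ℕ}

/-- The action of a gate on a state `ψ` of `m` qubits, relative to the oracles. (A gate of the
unitary oracle acts as the identity if the qubits in the list are not different qubits, or if one of
them is the control.) -/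
noncomputable def Gate.act (A : Oracle) (U : UOr) : Gate → (Basis m → ℂ) → (Basis m → ℂ)
  | .std g, ψ => g.act A ψ
  | .uni b c l, ψ => fun z =>
    if l.Nodup ∧ (∀ q ∈ l, q < m) ∧ c ∉ l ∧ bit z c = true then
      ∑ w : Basis l.length, U.op b l.length (rd z l) w * ψ (wr z l w)
    else ψ z

/-- The final state of the circuit `C` started in the state `ψ`. -/
noncomputable def run (A : Oracle) (U : UOr) : List Gate → (Basis m → ℂ) → (Basis m → ℂ)
  | [], ψ => ψ
  | g :: C, ψ => run A U C (g.act A U ψ)

/-- A verifier: a polynomial-time uniform family of quantum circuits with gates for the two oracles.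
The circuit for the inputs of length `n` has `n` input qubits, one qubit for the answer, `wit n`
qubits for the witness and `anc n` ancillary qubits. -/
structure Verifier : Type where
  /-- the circuit for the inputs of length `n` -/
  circ : ℕ → List Gate
  /-- its code is computed in polynomial time from any string of length `n` -/
  poly : PolyTime (fun u : List Bool => bits (circ u.length))
  /-- the number of qubits of the witness -/
  wit : Polynomial ℕ
  /-- the number of ancillary qubits -/
  anc : Polynomial ℕ

/-- the number of the qubits of the circuit for the inputs of length `n` -/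
def Verifier.qubits (F : Verifier) (n : ℕ) : ℕ := n + 1 + F.wit.eval n + F.anc.eval n

open scoped Classical in
/-- The initial state on the input `x` and the witness `φ`: the first qubits contain `x`, the qubits
after the answer qubit contain the witness, and all the other qubits are `0`. -/
noncomputable def Verifier.start (F : Verifier) (x : List Bool)
    (φ : Basis (F.wit.eval x.length) → ℂ) : Basis (F.qubits x.length) → ℂ := fun z =>
  if ∀ i, (i < x.length + 1 ∨ x.length + 1 + F.wit.eval x.length ≤ i) → bit z i = x.getD i false then
    φ (fun j => bit z (x.length + 1 + j))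
  else 0

/-- The probability that the verifier accepts the input `x` with the witness `φ`: the probability
that the answer qubit, the qubit number `|x|`, is one at the end. -/
noncomputable def Verifier.acc (F : Verifier) (A : Oracle) (U : UOr) (x : List Bool)
    (φ : Basis (F.wit.eval x.length) → ℂ) : ℝ :=
  ∑ z, if bit z x.length then ‖run A U (F.circ x.length) (F.start x φ) z‖ ^ 2 else 0

/-- The promise problem with the instances `Y` (yes) and `N` (no) is in `QMA` relative to the
oracles. -/
def IsQMA (A : Oracle) (U : UOr) (Y N : Set (List Bool)) : Prop :=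
  ∃ F : Verifier, ∀ x,
    (x ∈ Y → ∃ φ, IsState φ ∧ 2 / 3 ≤ F.acc A U x φ) ∧
    (x ∈ N → ∀ φ, IsState φ → F.acc A U x φ ≤ 1 / 3)

/-- The language `L` is in `QMA` with perfect completeness, relative to the oracles. -/
def IsQMA1 (A : Oracle) (U : UOr) (L : Set (List Bool)) : Prop :=
  ∃ F : Verifier, ∀ x,
    (x ∈ L → ∃ φ, IsState φ ∧ F.acc A U x φ = 1) ∧
    (x ∉ L → ∀ φ, IsState φ → F.acc A U x φ ≤ 1 / 3)

/-- The probability that the verifier accepts the input `x` with the classical witness `w`. -/
noncomputable def Verifier.accC (F : Verifier) (A : Oracle) (U : UOr) (x w : List Bool) : ℝ :=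
  F.acc A U x (ket fun i => w.getD i false)

/-- The promise problem is in `QCPH` with polynomial advice, relative to the oracles: a constant
number of alternating quantifiers over bit strings of polynomial length in front of a quantum
verifier, whose input is the pair of an advice string, which depends only on the length of `x` and
has polynomially bounded length, and of `x`. (The first level, `k = 1`, is `QCMA` with polynomial
advice.) -/
def IsQCPHpoly (A : Oracle) (U : UOr) (Y N : Set (List Bool)) : Prop :=
  ∃ (F : Verifier) (p : Polynomial ℕ) (k : ℕ) (q : Polynomial ℕ) (h : ℕ → List Bool),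
    (∀ n, (h n).length ≤ q.eval n) ∧ ∀ x,
    (x ∈ Y → Alt (p.eval (pairBits (h x.length) x).length)
      (fun w => 2 / 3 ≤ F.accC A U (pairBits (h x.length) x) w) k true []) ∧
    (x ∈ N → Alt (p.eval (pairBits (h x.length) x).length)
      (fun w => F.accC A U (pairBits (h x.length) x) w ≤ 1 / 3) k false [])

end Pool.Agent.Helper11x.PT
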