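import Pool.Agent.Helper11x.PT.Circ

/-!
# The language of the marked indices is in `QMA` with perfect completeness
-/

set_option autoImplicit false

namespace Pool.Agent.Helper11x.PT

open Pool.Agent.NPC Pool.Agent.H622R2 Pool.Agent.H620R2.Gauge Finset
open Pool.Agent.H9x.Q (Basis bit ket ket_norm put bit_put_self bit_put_ne put_put put_bit)
open Pool.Agent.R562.QH (nrm nrm_sq nrm_nonneg nrm_add_le nrm_congr)
open Pool.Agent.H10x.QW (rd wr IsState rd_wr wr_wr wr_rd bit_wr sum_xch sum_wr unitary_norm xs amp
  Pd proj proj_apply sum_amp)

variable {m : ℕ}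

/-- the contents of the list with the input `x` and the witness `y` -/
def cb (x : List Bool) {q : ℕ} (y : Basis q) : Basis (ll x.length).length := fun i =>
  if i.1 < dm x.length / 2 then x.getD i.1 false else bit y (i.1 - dm x.length / 2)

/-- the index which is given by the input -/
def ix (x : List Bool) : List Bool := x.take (dm x.length / 2)

theorem length_ix (x : List Bool) : (ix x).length = dm x.length / 2 := by
  unfold ix
  rw [List.length_take]
  have := dm_le x.length
  omega

theorem xs_eq_iff {x : List Bool} (u : Basis (ll x.length).length) :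
    xs u = ix x ↔ ∀ i : Fin (ll x.length).length, i.1 < dm x.length / 2 →
      u i = x.getD i.1 false := by
  have hlen : (ll x.length).length / 2 = dm x.length / 2 := by
    rw [length_ll]
  have hdm := dm_le x.length
  constructor
  · intro h i hi
    have h1 : (xs u)[i.1]? = some (u i) := by
      unfold xs
      rw [List.getElem?_ofFn, dif_pos (by omega)]
    rw [h] at h1
    unfold ix at h1
    rw [List.getElem?_take_of_lt hi] at h1
    rw [List.getD_eq_getElem?_getD, h1]
    rfl
  · intro h
    apply List.ext_getElem
    · rw [length_ix]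
      unfold xs
      rw [List.length_ofFn, hlen]
    · intro i h1 h2
      rw [length_ix] at h2
      have h3 : i < (ll x.length).length := by
        rw [length_ll]
        omega
      have h4 := h ⟨i, h3⟩ h2
      simp only at h4
      unfold xs ix
      rw [List.getElem_ofFn, h4, List.getElem_take, List.getD_eq_getElem _ _ (by omega)]

theorem xs_cb (x : List Bool) {q : ℕ} (y : Basis q) : xs (cb x y) = ix x := by
  rw [xs_eq_iff]
  intro i hi
  unfold cb
  rw [if_pos hi]

theorem rd_lt {x : List Bool} (z : Basis m) (i : Fin (ll x.length).length)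
    (hi : i.1 < dm x.length / 2) : rd z (ll x.length) i = bit z i.1 := by
  unfold rd
  rw [List.get_eq_getElem, get_ll_lt i.2 hi]

theorem rd_ge {x : List Bool} (z : Basis m) (i : Fin (ll x.length).length)
    (hi : dm x.length / 2 ≤ i.1) :
    rd z (ll x.length) i = bit z (x.length + 1 + (i.1 - dm x.length / 2)) := by
  unfold rd
  rw [List.get_eq_getElem, get_ll_ge i.2 hi]

/-- the qubits which are not in the list have the right values -/
def C0 (x : List Bool) (z : Basis m) : Prop :=
  ∀ i, i ∉ ll x.length → bit z i = x.getD i false

theorem C0_wr {x : List Bool} (z : Basis m) (w : Basis (ll x.length).length) :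
    C0 x (wr z (ll x.length) w) ↔ C0 x z :=
  forall_congr' fun i => imp_congr_right fun hi => by rw [bit_wr hi]

/-- the last qubits of the witness are zero -/
def Zr (x : List Bool) (y : Basis (VF.wit.eval x.length)) : Prop :=
  ∀ i, dm x.length - dm x.length / 2 ≤ i → bit y i = false

/-- the condition of the initial state -/
theorem cond_iff {x : List Bool} (z : Basis (VF.qubits x.length)) :
    ((∀ i, (i < x.length + 1 ∨ x.length + 1 + VF.wit.eval x.length ≤ i) →
      bit z i = x.getD i false) ∧ Zr x (fun j => bit z (x.length + 1 + j))) ↔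
    C0 x z ∧ xs (rd z (ll x.length)) = ix x := by
  have hw := wit_VF x.length
  have hq := qubits_VF x.length
  have hdm := dm_le x.length
  have hb : ∀ i, bit (fun j : Fin (VF.wit.eval x.length) => bit z (x.length + 1 + j)) i =
      if i < x.length then bit z (x.length + 1 + i) else false := by
    intro i
    by_cases h : i < x.length
    · rw [if_pos h]
      exact dif_pos (show i < VF.wit.eval x.length by omega)
    · rw [if_neg h]
      exact Pool.Agent.H9x.Q.bit_of_le (by omega)
  constructor
  · rintro ⟨h, h'⟩
    refine ⟨fun i hi => ?_, (xs_eq_iff _).2 fun i hi => ?_⟩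
    · rw [mem_ll] at hi
      by_cases h1 : i < x.length + 1 ∨ x.length + 1 + VF.wit.eval x.length ≤ i
      · exact h i h1
      · have h2 := h' (i - (x.length + 1)) (by omega)
        rw [hb, if_pos (by omega)] at h2
        rw [show x.length + 1 + (i - (x.length + 1)) = i by omega] at h2
        rw [h2, List.getD_eq_default _ _ (by omega)]
    · rw [rd_lt z i hi]
      exact h _ (by omega)
  · rintro ⟨h, h'⟩
    rw [xs_eq_iff] at h'
    refine ⟨fun i hi => ?_, fun i hi => ?_⟩
    · by_cases h1 : i ∈ ll x.length
      · rw [mem_ll] at h1
        have h4 : i < (ll x.length).length := by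
          rw [length_ll]
          omega
        have h5 := h' ⟨i, h4⟩ (by simp only; omega)
        rw [rd_lt z ⟨i, h4⟩ (by simp only; omega)] at h5
        exact h5
      · exact h i h1
    · rw [hb]
      split_ifs with h1
      · rw [h _ (by rw [mem_ll]; omega), List.getD_eq_default _ _ (by omega)]
      · rfl

open scoped Classical in
/-- the witness -/
noncomputable def wit0 (x : List Bool) (f : List Bool → Bool)
    (y : Basis (VF.wit.eval x.length)) : ℂ :=
  if Zr x y then ((amp ((ll x.length).length - (ll x.length).length / 2) f (cb x y) : ℝ) : ℂ)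
  else 0

open scoped Classical in
theorem start_wit0 {x : List Bool} (f : List Bool → Bool) (z : Basis (VF.qubits x.length)) :
    VF.start x (wit0 x f) z = if C0 x z ∧ xs (rd z (ll x.length)) = ix x then
      ((amp ((ll x.length).length - (ll x.length).length / 2) f (rd z (ll x.length)) : ℝ) : ℂ)
      else 0 := by
  have hw := wit_VF x.length
  have hdm := dm_le x.length
  unfold Verifier.start wit0
  by_cases h : C0 x z ∧ xs (rd z (ll x.length)) = ix x
  · have h1 := (cond_iff z).2 h
    rw [if_pos h, if_pos h1.1, if_pos h1.2]
    congr 2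
    funext i
    unfold cb
    split_ifs with hi
    · exact ((xs_eq_iff _).1 h.2 i hi).symm
    · have h2 := i.2
      have hL := length_ll x.length
      rw [rd_ge z i (by omega)]
      unfold bit
      rw [dif_pos (show i.1 - dm x.length / 2 < Polynomial.eval x.length VF.wit by omega)]
  · rw [if_neg h]
    split_ifs with h1 h2
    · exact absurd ((cond_iff z).1 ⟨h1, h2⟩) h
    · rfl
    · rfl

theorem cb_inj {x : List Bool} {y y' : Basis (VF.wit.eval x.length)} (hy : Zr x y)
    (hy' : Zr x y') (h : cb x y = cb x y') : y = y' := by
  have hw := wit_VF x.length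
  funext j
  have hj := j.2
  have e1 : y j = bit y j.1 := by
    unfold bit
    rw [dif_pos hj]
  have e2 : y' j = bit y' j.1 := by
    unfold bit
    rw [dif_pos hj]
  rw [e1, e2]
  by_cases h1 : dm x.length - dm x.length / 2 ≤ j.1
  · rw [hy _ h1, hy' _ h1]
  · have h2 : dm x.length / 2 + j.1 < (ll x.length).length := by
      rw [length_ll]
      omega
    have h3 := congrFun h ⟨dm x.length / 2 + j.1, h2⟩
    simp only [cb] at h3
    rw [if_neg (by omega), if_neg (by omega), Nat.add_sub_cancel_left] at h3
    exact h3

theorem eq_cb {x : List Bool} {u : Basis (ll x.length).length} (hu : xs u = ix x) :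
    Zr x (fun j : Fin (VF.wit.eval x.length) => bit u (dm x.length / 2 + j.1)) ∧
    cb x (fun j : Fin (VF.wit.eval x.length) => bit u (dm x.length / 2 + j.1)) = u := by
  have hw := wit_VF x.length
  have hdm := dm_le x.length
  have hL := length_ll x.length
  have h2 := (xs_eq_iff u).1 hu
  constructor
  · intro i hi
    by_cases h3 : i < VF.wit.eval x.length
    · refine Eq.trans (dif_pos h3) ?_
      exact Pool.Agent.H9x.Q.bit_of_le (by simp only; omega)
    · exact Pool.Agent.H9x.Q.bit_of_le (by omega)
  · funext i
    unfold cb
    split_ifs with hi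
    · exact (h2 i hi).symm
    · have h3 := i.2
      unfold bit
      rw [dif_pos (show i.1 - dm x.length / 2 < Polynomial.eval x.length VF.wit by omega)]
      simp only
      have e : dm x.length / 2 + (i.1 - dm x.length / 2) = i.1 := by omega
      simp only [e]
      rw [dif_pos i.2]

theorem isState_wit0 {x : List Bool} (f : List Bool → Bool) : IsState (wit0 x f) := by
  classical
  unfold IsState
  set k := (ll x.length).length - (ll x.length).length / 2 with hk
  have h1 := sum_amp (hk0 (ll x.length).length) f
    (cb x (fun _ : Fin (VF.wit.eval x.length) => false))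
  rw [← hk] at h1
  have h2 : ∑ y, ‖wit0 x f y‖ ^ 2 =
      ∑ y ∈ univ.filter (fun y => Zr x y), amp k f (cb x y) ^ 2 := by
    rw [sum_filter]
    refine sum_congr rfl fun y _ => ?_
    unfold wit0
    split_ifs
    · rw [Complex.norm_real, Real.norm_eq_abs, sq_abs]
    · rw [norm_zero]
      norm_num
  rw [h2, ← h1]
  refine sum_of_injOn (cb x) (fun y hy y' hy' h => ?_) ?_ ?_ ?_
  · exact cb_inj (mem_filter.1 hy).2 (mem_filter.1 hy').2 h
  · intro y _
    simp only [coe_filter, mem_univ, true_and, Set.mem_ofPred_eq, xs_cb]
  · intro u hu hu'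
    exfalso
    apply hu'
    rw [mem_filter, xs_cb] at hu
    have h3 := eq_cb hu.2.symm
    exact ⟨_, by simpa using h3.1, h3.2⟩
  · intro y _
    rfl

open scoped Classical in
/-- the projection of the witness -/
theorem sum_wit0 {x : List Bool} {b f : List Bool → Bool} (hb : b (ix x) = true)
    (z : Basis (VF.qubits x.length)) :
    ∑ w : Basis (ll x.length).length,
      proj ((ll x.length).length - (ll x.length).length / 2) b f (rd z (ll x.length)) w *
      VF.start x (wit0 x f) (wr z (ll x.length) w) = VF.start x (wit0 x f) z := by
  have hw := wit_VF x.length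
  have hdm := dm_le x.length
  have hq := qubits_VF x.length
  have hnd := nodup_ll x.length
  have hlt : ∀ q ∈ ll x.length, q < VF.qubits x.length := by
    intro q hq
    rw [mem_ll] at hq
    omega
  rw [start_wit0]
  have h1 : ∀ w : Basis (ll x.length).length, VF.start x (wit0 x f) (wr z (ll x.length) w) =
      if C0 x z ∧ xs w = ix x then
        ((amp ((ll x.length).length - (ll x.length).length / 2) f w : ℝ) : ℂ) else 0 := by
    intro w
    rw [start_wit0, rd_wr hnd hlt, C0_wr]
  rw [sum_congr rfl fun w _ => by rw [h1 w]]
  by_cases h : C0 x z ∧ xs (rd z (ll x.length)) = ix x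
  · rw [if_pos h]
    obtain ⟨h2, h3⟩ := h
    have h4 := sum_amp (hk0 (ll x.length).length) f (rd z (ll x.length))
    set k := (ll x.length).length - (ll x.length).length / 2
    have h5 : ∀ w : Basis (ll x.length).length, proj k b f (rd z (ll x.length)) w *
        (if C0 x z ∧ xs w = ix x then ((amp k f w : ℝ) : ℂ) else 0) =
        if xs (rd z (ll x.length)) = xs w then
          ((amp k f (rd z (ll x.length)) * amp k f w ^ 2 : ℝ) : ℂ) else 0 := by
      intro w
      rw [proj_apply]
      by_cases h6 : xs (rd z (ll x.length)) = xs w
      · rw [if_pos ⟨by rw [h3]; exact hb, h6⟩, if_pos ⟨h2, by rw [← h6, h3]⟩, if_pos h6]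
        push_cast
        ring
      · rw [if_neg fun h => h6 h.2, if_neg h6, zero_mul]
    rw [sum_congr rfl fun w _ => h5 w, ← sum_filter, ← Complex.ofReal_sum, ← mul_sum, h4, mul_one]
  · rw [if_neg h]
    refine sum_eq_zero fun w _ => ?_
    rw [proj_apply]
    by_cases h2 : C0 x z ∧ xs w = ix x
    · rw [if_neg (c := b (xs (rd z (ll x.length))) = true ∧ xs (rd z (ll x.length)) = xs w),
        zero_mul]
      rintro ⟨_, h3⟩
      exact h ⟨h2.1, h3.trans h2.2⟩
    · rw [if_neg h2, mul_zero]

/-- the projection of every witness, if the index is not marked -/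
theorem sum_unmarked {x : List Bool} {k : ℕ} {b f : List Bool → Bool} (hb : ¬ b (ix x) = true)
    (φ : Basis (VF.wit.eval x.length) → ℂ) (z : Basis (VF.qubits x.length)) :
    ∑ w : Basis (ll x.length).length, proj k b f (rd z (ll x.length)) w *
      VF.start x φ (wr z (ll x.length) w) = 0 := by
  have hw := wit_VF x.length
  have hdm := dm_le x.length
  have hq := qubits_VF x.length
  have hnd := nodup_ll x.length
  have hlt : ∀ q ∈ ll x.length, q < VF.qubits x.length := by
    intro q hq
    rw [mem_ll] at hq
    omega
  refine sum_eq_zero fun w _ => ?_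
  by_cases h : VF.start x φ (wr z (ll x.length) w) = 0
  · rw [h, mul_zero]
  · unfold Verifier.start at h
    have h1 : ∀ i, (i < x.length + 1 ∨ x.length + 1 + VF.wit.eval x.length ≤ i) →
      bit (wr z (ll x.length) w) i = x.getD i false := by
      by_contra hcon
      exact h (if_neg hcon)
    have h2 : xs w = ix x := by
      rw [xs_eq_iff]
      intro i hi
      have h3 := rd_lt (x := x) (wr z (ll x.length) w) i hi
      rw [rd_wr hnd hlt] at h3
      rw [h3]
      exact h1 _ (by omega)
    rw [proj_apply, if_neg, zero_mul]
    rintro ⟨h3, h4⟩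
    rw [h4, h2] at h3
    exact hb h3

/-- the language of the marked indices -/
def LL (κ : Dat) : Set (List Bool) :=
  {x | (κ (dm x.length)).1 = ti x.length ∧ (κ (dm x.length)).2.1 (ix x) = true}

/-- the data without marked indices -/
def nul : Dat := fun _ => (0, fun _ => false, fun _ => false)

theorem uo_nul {κ : Dat} {k : ℕ} (h : (κ k).2.1 = fun _ => false) : (uo κ).mat k = 1 := by
  show rot _ _ _ _ = _
  rw [h, rot_false]

theorem acc_nul (A : Oracle) (x : List Bool) (φ : Basis (VF.wit.eval x.length) → ℂ) :
    VF.acc A (uo nul) x φ = 0 := by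
  refine acc_zero fun z => ?_
  rw [uo_nul rfl, one_pow, sum_one]

/-- **The language of the marked indices is in `QMA` with perfect completeness.** -/
theorem lang_in (A : Oracle) (κ : Dat) : IsQMA1 A (uo κ) (LL κ) := by
  refine ⟨VF, fun x => ?_⟩
  have hlen := length_ll x.length
  have hmat : ∀ n, (uo κ).mat (ll x.length).length ^ n =
      rot ((ll x.length).length - (ll x.length).length / 2) (th (κ (dm x.length)).1 ^ n)
        (κ (dm x.length)).2.1 (κ (dm x.length)).2.2 := by
    intro n
    rw [← rot_pow (hk0 _), ← hlen]
    rfl
  constructor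
  · rintro ⟨h1, h2⟩
    refine ⟨wit0 x (κ (dm x.length)).2.2, isState_wit0 _, acc_one (isState_wit0 _) fun z => ?_⟩
    rw [hmat, sum_rot, sum_wit0 h2, sh_eq, ← h1, th_pow_self]
    ring
  · intro hx φ hφ
    by_cases hb : (κ (dm x.length)).2.1 (ix x) = true
    · have ht : (κ (dm x.length)).1 ≠ ti x.length := fun h => hx ⟨h, hb⟩
      rcases Nat.lt_or_gt_of_ne ht with h1 | h1
      · rw [acc_zero fun z => by rw [hmat, sh_eq, th_pow_gt h1, rot_one, sum_one]]
        norm_num
      · have h2 : Near (fun m => 4 / 256 ^ (κ m).1) (uo κ) := near_uo fun m => Or.inr le_rfl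
        have h3 := acc_close VF A (U := uo nul) (U' := uo κ) x hφ
          (η := 4 / 256 ^ (κ (dm x.length)).1) (by positivity) (fun b c l hl => by
            have : l = ll x.length := by
              have h4 : Gate.uni b c l ∈ vc x.length := hl
              unfold vc at h4
              simp only [List.mem_cons, List.mem_append, List.mem_replicate, reduceCtorEq,
                Gate.uni.injEq, false_or, List.not_mem_nil, or_false] at h4
              exact h4.2.2.2
            rw [this]
            have h5 := h2.clAt (U' := uo nul) (uo_nul rfl) (k := (ll x.length).length)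
            rw [hlen] at h5 ⊢
            exact h5)
        rw [acc_nul, sub_zero] at h3
        have h4 : VF.circ x.length = vc x.length := rfl
        rw [h4] at h3
        have h5 : (vc x.length).length = sh x.length + 3 := by
          simp [vc]
        rw [h5] at h3
        refine (le_abs_self _).trans (h3.trans ?_)
        have h6 : 256 * 256 ^ ti x.length ≤ 256 ^ (κ (dm x.length)).1 := by
          rw [← pow_succ']
          exact Nat.pow_le_pow_right (by norm_num) h1
        have h7 : (256 : ℝ) * 256 ^ ti x.length ≤ 256 ^ (κ (dm x.length)).1 := by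
          exact_mod_cast h6
        have h8 : ((sh x.length : ℕ) : ℝ) = 256 ^ ti x.length := by
          rw [sh_eq]
          push_cast
          rfl
        have h9 : (1 : ℝ) ≤ 256 ^ ti x.length := one_le_pow₀ (by norm_num)
        have h10 : (0 : ℝ) < 256 ^ (κ (dm x.length)).1 := by positivity
        push_cast
        rw [h8]
        rw [show 2 * (((256 : ℝ) ^ ti x.length + 3) * (4 / 256 ^ (κ (dm x.length)).1)) =
          (8 * (256 ^ ti x.length + 3)) / 256 ^ (κ (dm x.length)).1 by ring]
        rw [div_le_iff₀ h10]
        linarith
    · rw [acc_zero fun z => by rw [hmat, sum_rot, sum_unmarked hb, mul_zero, add_zero]]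
      norm_num

end Pool.Agent.Helper11x.PT
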