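import Pool.Agent.Helper11x.PT.Net
import Pool.Agent.Helper11x.SP.Conv
import Pool.Agent.Helper11x.SW7.P1
import Pool.Agent.H622R2.Exp.YAux

/-!
# Exponentially small perturbations do not help
-/

set_option autoImplicit false

namespace Pool.Agent.Helper11x.PT

open Pool.Agent.NPC Pool.Agent.H622R2 Pool.Agent.H620R2.Gauge Pool.Agent.H622R2.Exp Filter Finset
open Pool.Agent.H9x.Q (Basis bit ket)
open Pool.Agent.H10x.QW (IsState)
open Pool.Agent.TH678.PN (cut_congr)
open Pool.Agent.Helper11x.SP (isP_ask)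

/-- the number of the qubits up to which the operators are described -/
def mx (C n : ℕ) : ℕ := C * (Nat.log 2 (n + 2) + 1)

theorem le_mx (C n : ℕ) : C ≤ mx C n := Nat.le_mul_of_pos_right _ (by omega)

theorem two_pow_mx (C n : ℕ) : (n + 2) ^ C ≤ 2 ^ mx C n := by
  unfold mx
  rw [mul_comm, pow_mul]
  exact Nat.pow_le_pow_left (Nat.lt_pow_succ_log_self (by norm_num) _).le _

theorem mx_pow (C n : ℕ) : 2 ^ (4 * mx C n + 2) ≤ 4 * (2 * (n + 2)) ^ (4 * C) := by
  have h1 : 2 ^ (Nat.log 2 (n + 2) + 1) ≤ 2 * (n + 2) := by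
    rw [pow_succ]
    have := Nat.pow_log_le_self 2 (show n + 2 ≠ 0 by omega)
    omega
  unfold mx
  calc 2 ^ (4 * (C * (Nat.log 2 (n + 2) + 1)) + 2) =
        4 * (2 ^ (Nat.log 2 (n + 2) + 1)) ^ (4 * C) := by
        rw [← pow_mul, pow_add]
        ring
    _ ≤ _ := Nat.mul_le_mul_left _ (Nat.pow_le_pow_left h1 _)

theorem not_code {R : ℕ → Polynomial ℕ} (hR : ∀ n, 1 ≤ (R 0).eval n) (y : List Bool) :
    ∀ (e : ℕ) (x : List Bool), (false :: false :: y : List Bool) ≠ code R e x := by
  intro e x h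
  unfold code at h
  rcases e with _ | e
  · obtain ⟨a, ha⟩ := Nat.exists_eq_add_of_le (hR x.length)
    rw [ha, add_comm] at h
    simp [List.replicate_succ] at h
  · simp [List.replicate_succ] at h

/-- the question for the verifier `F` -/
def Ask (F : Verifier) (C : ℕ) (A : Oracle) (y : List Bool) : Prop :=
  ∃ x h : List Bool, y = pairBits x h ∧ ∃ U : UOr, ds (mx C x.length) U = h ∧
    (∀ k, mx C x.length < k → U.mat k = 1) ∧ ∃ φ, IsState φ ∧ 1 / 2 ≤ F.acc A U x φ

/-- **The world.** Everything about the verifiers is known in it for unitary oracles with short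
descriptions. -/
theorem exists_world (B : Oracle) : ∃ A : Oracle, Reduces {y | B y = true} {y | A y = true} ∧
    (∀ L, IsPSPACE A L → IsP A L) ∧
    ∀ (F : Verifier) (C : ℕ), ∃ c : List Bool → List Bool, Poly c ∧
      ∀ y, A (c y) = true ↔ Ask F C A y := by
  obtain ⟨g, hg⟩ := CC.exists_enum
  choose bd hbd using pspace_task
  choose sp hsp using fun F : Verifier => F.size
  have : Nonempty Verifier := ⟨⟨fun _ => [], polyTime_bits (NPC.Poly.const []), 0, 0⟩⟩
  obtain ⟨G, hG⟩ := exists_surjective_nat (Verifier × ℕ)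
  set R : ℕ → Polynomial ℕ := fun e => if e % 2 = 0 then bd (g (e / 2)).1 (g (e / 2)).2 + 1
    else sp (G (e / 2)).1 + 1 with hR
  let V : ℕ → Oracle → List Bool → Prop := fun e A y =>
    if e % 2 = 0 then CC.Acc (g (e / 2)).1
      (CC.cut ((bd (g (e / 2)).1 (g (e / 2)).2).eval y.length) A) y
    else Ask (G (e / 2)).1 (G (e / 2)).2 A y
  have hV : ∀ e A A' y, (∀ z : List Bool, z.length < (code R e y).length → A z = A' z) →
      (V e A y ↔ V e A' y) := by
    intro e A A' y hA
    have h1 := CC.lt_length_code R e y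
    by_cases he : e % 2 = 0
    · have h2 : R e = bd (g (e / 2)).1 (g (e / 2)).2 + 1 := if_pos he
      rw [h2, Polynomial.eval_add, Polynomial.eval_one] at h1
      show (if e % 2 = 0 then _ else _) ↔ (if e % 2 = 0 then _ else _)
      rw [if_pos he, if_pos he, cut_congr fun z hz => hA z (by omega)]
    · have h2 : R e = sp (G (e / 2)).1 + 1 := if_neg he
      rw [h2, Polynomial.eval_add, Polynomial.eval_one] at h1
      show (if e % 2 = 0 then _ else _) ↔ (if e % 2 = 0 then _ else _)
      rw [if_neg he, if_neg he]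
      refine exists_congr fun x => exists_congr fun h => and_congr_right fun hy =>
        exists_congr fun U => and_congr_right fun _ => and_congr_right fun _ =>
        exists_congr fun φ => and_congr_right fun _ => ?_
      rw [acc_congr (hsp (G (e / 2)).1 x.length).2 (fun z hz => hA z ?_) (fun _ _ => rfl)]
      have h3 : x.length ≤ y.length := by
        rw [hy, length_pairBits]
        omega
      have h4 := eval_mono (sp (G (e / 2)).1) h3
      omega
  set A := CC.Phi R V (fun y => B (y.drop 2)) with hAdef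
  have hcode : ∀ e y, A (code R e y) = true ↔ V e A y := fun e y =>
    CC.Phi_code R V _ hV e y
  refine ⟨A, ⟨fun y => false :: false :: y, ?_, fun y => ?_⟩, ?_, fun F C => ?_⟩
  · exact polyTime_of_poly_list (Poly.cons (NPC.Poly.const false)
      (Poly.cons (NPC.Poly.const false) Poly.id))
  · have h1 := not_code (R := R) (by rw [hR]; simp) y
    rw [Set.mem_ofPred_eq, Set.mem_ofPred_eq, hAdef, CC.Phi_not R V _ _ h1]
    rfl
  · rintro L ⟨M, p, hM⟩
    obtain ⟨e, he⟩ := hg (M, p)
    refine isP_of_reduces ⟨fun x => code R (2 * e) x,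
      polyTime_of_poly_list (CC.poly_code R (2 * e)), fun x => ?_⟩
    rw [hbd M p _ L hM x, Set.mem_ofPred_eq, hcode]
    have h1 : 2 * e % 2 = 0 := by omega
    have h2 : 2 * e / 2 = e := by omega
    show _ ↔ (if 2 * e % 2 = 0 then _ else _)
    rw [if_pos h1, h2, he]
  · obtain ⟨e, he⟩ := hG (F, C)
    refine ⟨fun y => code R (2 * e + 1) y, CC.poly_code R (2 * e + 1), fun y => ?_⟩
    rw [hcode]
    have h1 : ¬ (2 * e + 1) % 2 = 0 := by omega
    have h2 : (2 * e + 1) / 2 = e := by omega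
    show (if (2 * e + 1) % 2 = 0 then _ else _) ↔ _
    rw [if_neg h1, h2, he]

/-- the choice of the constant -/
theorem exists_const {ε : ℕ → ℝ} (hε : ExpSmall ε) (S : Polynomial ℕ) : ∃ C : ℕ, ∀ n,
    32 * S.eval n + 32 ≤ 2 ^ mx C n ∧
    ∀ k, mx C n < k → ε k ≤ 1 / (16 * (((S.eval n : ℕ) : ℝ) + 1)) := by
  obtain ⟨δ, hδ, h⟩ := hε
  obtain ⟨K, hK⟩ := eventually_atTop.1 h
  obtain ⟨D, _, hD⟩ := YAux.poly_bound (S + 1)
  obtain ⟨C₀, hC₀⟩ := exists_nat_ge ((D + 5 : ℝ) / δ)
  have hS : ∀ n, 32 * S.eval n + 32 ≤ (n + 2) ^ (D + 5) := by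
    intro n
    have h1 := hD n
    rw [Polynomial.eval_add, Polynomial.eval_one] at h1
    have h2 : 2 ^ 5 ≤ (n + 2) ^ 5 := Nat.pow_le_pow_left (by omega) _
    calc 32 * S.eval n + 32 = (S.eval n + 1) * 2 ^ 5 := by ring
      _ ≤ (n + 2) ^ D * (n + 2) ^ 5 := Nat.mul_le_mul h1 h2
      _ = _ := by rw [pow_add]
  refine ⟨max (D + 5) (max C₀ K), fun n => ⟨?_, fun k hk => ?_⟩⟩
  · refine (hS n).trans (le_trans ?_ (two_pow_mx _ n))
    exact Nat.pow_le_pow_right (by omega) (le_max_left _ _)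
  · set C := max (D + 5) (max C₀ K) with hC
    have hkC : C < k := lt_of_le_of_lt (le_mx C n) hk
    refine (hK k (by omega)).trans ?_
    have h1 : ((D + 5 : ℝ)) * (Nat.log 2 (n + 2) + 1) ≤ δ * k := by
      have h2 : (D + 5 : ℝ) ≤ δ * C := by
        have h3 : (C₀ : ℝ) ≤ C := by
          exact_mod_cast (le_max_left C₀ K).trans (le_max_right _ _)
        have h4 := (div_le_iff₀ hδ).1 (hC₀.trans h3)
        linarith
      have h3 : (C : ℝ) * (Nat.log 2 (n + 2) + 1) ≤ k := by
        have : C * (Nat.log 2 (n + 2) + 1) ≤ k := hk.le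
        exact_mod_cast this
      calc ((D + 5 : ℝ)) * (Nat.log 2 (n + 2) + 1) ≤ δ * C * (Nat.log 2 (n + 2) + 1) :=
            mul_le_mul_of_nonneg_right h2 (by positivity)
        _ = δ * (C * (Nat.log 2 (n + 2) + 1)) := by ring
        _ ≤ δ * k := mul_le_mul_of_nonneg_left h3 hδ.le
    rw [Real.rpow_neg (by norm_num), one_div]
    refine inv_anti₀ (by positivity) ?_
    have h5 : ((n : ℝ) + 2) ^ (D + 5) ≤ (2 : ℝ) ^ (δ * k) := by
      have h6 : (2 : ℝ) ^ (((D + 5 : ℕ) : ℝ) * (Nat.log 2 (n + 2) + 1 : ℕ)) ≤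
          (2 : ℝ) ^ (δ * k) := by
        refine Real.rpow_le_rpow_of_exponent_le (by norm_num) ?_
        push_cast
        exact h1
      refine le_trans ?_ h6
      rw [mul_comm, Real.rpow_mul (by norm_num), Real.rpow_natCast, Real.rpow_natCast]
      refine pow_le_pow_left₀ (by positivity) ?_ _
      have := (Nat.lt_pow_succ_log_self (show 1 < 2 by norm_num) (n + 2)).le
      exact_mod_cast this
    refine le_trans ?_ h5
    have h6 := hS n
    have h7 : (32 * ((S.eval n : ℕ) : ℝ) + 32) ≤ ((n : ℝ) + 2) ^ (D + 5) := by exact_mod_cast h6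
    have h8 : (0 : ℝ) ≤ ((S.eval n : ℕ) : ℝ) := Nat.cast_nonneg _
    linarith

/-- **Exponentially small perturbations do not help.** -/
theorem upper (B : Oracle) : ∃ A : Oracle, Reduces {y | B y = true} {y | A y = true} ∧
    (∀ L, IsPSPACE A L → IsP A L) ∧
    ∀ ε : ℕ → ℝ, (∀ k, 0 ≤ ε k) → ExpSmall ε → ∀ U : UOr, Near ε U →
      ∀ Y N, IsQMA A U Y N → ∃ L, WithAdvice (IsP A) L ∧ Y ⊆ L ∧ Disjoint N L := by
  obtain ⟨A, hA1, hA2, hA3⟩ := exists_world B
  refine ⟨A, hA1, hA2, fun ε hε0 hε U hU Y N ⟨F, hF⟩ => ?_⟩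
  obtain ⟨S, hS⟩ := F.size
  obtain ⟨C, hC⟩ := exists_const hε S
  obtain ⟨c, hc, hcA⟩ := hA3 F C
  -- the approximation
  have happ : ∀ (x : List Bool) (U' : UOr) (φ : Basis (F.wit.eval x.length) → ℂ), IsState φ →
      ds (mx C x.length) U' = ds (mx C x.length) U →
      (∀ k, mx C x.length < k → U'.mat k = 1) → |F.acc A U' x φ - F.acc A U x φ| ≤ 1 / 8 := by
    intro x U' φ hφ hds htr
    obtain ⟨h1, h2⟩ := hC x.length
    set s := S.eval x.length with hs
    have hs0 : (0 : ℝ) ≤ s := Nat.cast_nonneg _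
    have h3 := acc_close F A (U := U) (U' := U') x hφ (η := 1 / (16 * (s + 1))) (by positivity)
      (fun b' c' l _ => by
        by_cases hl : l.length ≤ mx C x.length
        · refine (cd_close (cd_of_ds hds) hl).mono (by positivity) ?_
          rw [div_le_div_iff₀ (by positivity) (by positivity)]
          have h4 : (32 * (s : ℝ) + 32) ≤ 2 ^ mx C x.length := by exact_mod_cast h1
          linarith
        · exact (hU.clAt (htr _ (by omega))).symm.mono (hε0 _) (h2 _ (by omega)))
    refine h3.trans ?_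
    have h4 : ((F.circ x.length).length : ℝ) ≤ s := by exact_mod_cast (hS x.length).1
    have h5 : ((F.circ x.length).length : ℝ) * (1 / (16 * (s + 1))) ≤ 1 / 16 := by
      calc ((F.circ x.length).length : ℝ) * (1 / (16 * (s + 1))) ≤
            (s + 1) * (1 / (16 * (s + 1))) := by
            refine mul_le_mul_of_nonneg_right ?_ (by positivity)
            linarith
        _ = 1 / 16 := by field_simp
    linarith
  set h : ℕ → List Bool := fun n => ds (mx C n) U with hh
  refine ⟨{x | A (c (pairBits x (h x.length))) = true}, ⟨{y | A (c y) = true}, h,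
    Polynomial.C 4 * (Polynomial.C 2 * (Polynomial.X + Polynomial.C 2)) ^ (4 * C),
    isP_ask A hc, fun n => ?_, fun x => Iff.rfl⟩, fun x hx => ?_, ?_⟩
  · rw [hh]
    simp only
    rw [length_ds]
    refine (mx_pow C n).trans (le_of_eq ?_)
    simp
  · rw [Set.mem_ofPred_eq, hcA]
    obtain ⟨φ, hφ, hacc⟩ := (hF x).1 hx
    refine ⟨x, h x.length, rfl, trunc (mx C x.length) U, ds_trunc _ _,
      fun k hk => if_neg (by omega), φ, hφ, ?_⟩
    have h1 := abs_le.1 (happ x (trunc (mx C x.length) U) φ hφ (ds_trunc _ _)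
      (fun k hk => if_neg (by omega)))
    linarith [h1.1]
  · rw [Set.disjoint_left]
    intro x hx hx'
    rw [Set.mem_ofPred_eq, hcA] at hx'
    obtain ⟨x', h', he, U', hds, htr, φ, hφ, hacc⟩ := hx'
    have h2 := congrArg unpair he
    rw [unpair_pairBits, unpair_pairBits, Prod.mk.injEq] at h2
    obtain ⟨rfl, h3⟩ := h2
    have h4 := abs_le.1 (happ x U' φ hφ (hds.trans h3.symm) htr)
    have h5 := (hF x).2 hx φ hφ
    linarith [h4.2]

end Pool.Agent.Helper11x.PT
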