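import Pool.Agent.Helper11x.PT.Stage
import Pool.Agent.Helper11x.PT.Up

/-!
# The size of the perturbation which separates `QMA` from `QCMA`
-/

set_option autoImplicit false

namespace Pool.Agent.Helper11x.PT

open Pool.Agent.NPC Pool.Agent.H620R2.Gauge

theorem threshold :
    (∀ ε : ℕ → ℝ, (∀ k, 0 ≤ ε k) → ¬ ExpSmall ε → ∀ A : Oracle, ∃ U : UOr, Near ε U ∧
      ∃ L, IsQMA1 A U L ∧ ¬ IsQCPHpoly A U L Lᶜ) ∧
    ∀ B : Oracle, ∃ A : Oracle, Reduces {y | B y = true} {y | A y = true} ∧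
      (∀ L, IsPSPACE A L → IsP A L) ∧
      ∀ ε : ℕ → ℝ, (∀ k, 0 ≤ ε k) → ExpSmall ε → ∀ U : UOr, Near ε U →
        ∀ Y N, IsQMA A U Y N → ∃ L, WithAdvice (IsP A) L ∧ Y ⊆ L ∧ Disjoint N L :=
  ⟨fun _ _ hε A => lower hε A, upper⟩

end Pool.Agent.Helper11x.PT
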