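import Pool.Agent.Helper11x.PT.Close

/-!
# Descriptions of unitary oracles
-/

set_option autoImplicit false

namespace Pool.Agent.Helper11x.PT

open Pool.Agent.NPC Pool.Agent.H620R2.Gauge Finset
open Pool.Agent.H9x.Q (Basis bit ket)

/-- the rounding of a real number of absolute value at most one -/
noncomputable def rn (s : ℕ) (a : ℝ) : Fin (2 ^ (s + 2)) :=
  ⟨(⌊a * 2 ^ s⌋ + 2 ^ s).toNat % 2 ^ (s + 2), Nat.mod_lt _ (by positivity)⟩

theorem rn_range {s : ℕ} {a : ℝ} (ha : |a| ≤ 1) : 0 ≤ ⌊a * 2 ^ s⌋ + 2 ^ s ∧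
    ⌊a * 2 ^ s⌋ + 2 ^ s < 2 ^ (s + 2) := by
  have h1 := abs_le.1 ha
  have h2 : (0 : ℝ) < 2 ^ s := by positivity
  constructor
  · have h3 : (-(2 ^ s) : ℤ) ≤ ⌊a * 2 ^ s⌋ := by
      rw [Int.le_floor]
      push_cast
      nlinarith
    omega
  · have h3 : ⌊a * 2 ^ s⌋ < (2 ^ s + 1 : ℤ) := by
      rw [Int.floor_lt]
      push_cast
      nlinarith
    have h4 : (2 : ℤ) ^ (s + 2) = 4 * 2 ^ s := by ring
    have h5 : (0 : ℤ) < 2 ^ s := by positivity
    rw [h4]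
    omega

theorem rn_close {s : ℕ} {a b : ℝ} (ha : |a| ≤ 1) (hb : |b| ≤ 1) (h : rn s a = rn s b) :
    |a - b| ≤ 1 / 2 ^ s := by
  have h1 := rn_range (s := s) ha
  have h2 := rn_range (s := s) hb
  have h3 : (⌊a * 2 ^ s⌋ + 2 ^ s).toNat % 2 ^ (s + 2) =
      (⌊b * 2 ^ s⌋ + 2 ^ s).toNat % 2 ^ (s + 2) := congrArg Fin.val h
  have h4 : ∀ x : ℤ, 0 ≤ x → x < 2 ^ (s + 2) → x.toNat % 2 ^ (s + 2) = x.toNat := by
    intro x hx1 hx2
    refine Nat.mod_eq_of_lt ?_
    zify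
    rw [Int.toNat_of_nonneg hx1]
    exact hx2
  rw [h4 _ h1.1 h1.2, h4 _ h2.1 h2.2] at h3
  have h5 : ⌊a * 2 ^ s⌋ = ⌊b * 2 ^ s⌋ := by omega
  have h6 := Int.abs_sub_lt_one_of_floor_eq_floor h5
  have h7 : (0 : ℝ) < 2 ^ s := by positivity
  rw [le_div_iff₀ h7]
  have h8 : |a - b| * 2 ^ s = |a * 2 ^ s - b * 2 ^ s| := by
    rw [← sub_mul, abs_mul, abs_of_pos h7]
  rw [h8]
  exact h6.le

/-- the descriptions of the operators on at most `M` qubits -/
abbrev Cd (M : ℕ) : Type := (k : Fin (M + 1)) → Basis k.1 → Basis k.1 → Bool →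
  Fin (2 ^ (2 * M + 2))

/-- the description of a unitary oracle -/
noncomputable def cd (M : ℕ) (U : UOr) : Cd M := fun k u w b =>
  rn (2 * M) (if b then (U.mat k.1 u w).re else (U.mat k.1 u w).im)

theorem card_cd (M : ℕ) : Fintype.card (Cd M) ≤ 2 ^ 2 ^ (4 * M + 2) := by
  have h0 : M + 1 ≤ 2 ^ M := Nat.lt_two_pow_self
  rw [Fintype.card_pi]
  have h1 : ∀ k ∈ (univ : Finset (Fin (M + 1))),
      Fintype.card (Basis k.1 → Basis k.1 → Bool → Fin (2 ^ (2 * M + 2))) ≤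
      2 ^ ((2 * M + 2) * 2 * 4 ^ M) := by
    intro k _
    have hk := k.2
    simp only [Fintype.card_fun, Fintype.card_fin, Fintype.card_bool]
    rw [← pow_mul, ← pow_mul, ← pow_mul]
    refine Nat.pow_le_pow_right (by norm_num) ?_
    have h2 : 2 ^ k.1 * 2 ^ k.1 ≤ 4 ^ M := by
      rw [← mul_pow]
      exact Nat.pow_le_pow_right (by norm_num) (by omega)
    calc (2 * M + 2) * (2 * (2 ^ k.1 * 2 ^ k.1)) = (2 * M + 2) * 2 * (2 ^ k.1 * 2 ^ k.1) := by ring
      _ ≤ _ := Nat.mul_le_mul_left _ h2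
  refine (prod_le_pow_card _ _ _ h1).trans ?_
  rw [card_univ, Fintype.card_fin, ← pow_mul]
  refine Nat.pow_le_pow_right (by norm_num) ?_
  calc (2 * M + 2) * 2 * 4 ^ M * (M + 1) = 4 * ((M + 1) * (M + 1)) * 4 ^ M := by ring
    _ ≤ 4 * (2 ^ M * 2 ^ M) * 4 ^ M := by gcongr
    _ = 2 ^ (4 * M + 2) := by
      have h4 : (4 : ℕ) ^ M = 2 ^ M * 2 ^ M := by
        rw [← mul_pow]
        norm_num
      rw [h4, pow_add, pow_mul' 2 4 M]
      ring

/-- the description as a string -/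
theorem exists_emb (M : ℕ) : ∃ g : Cd M → List Bool, Function.Injective g ∧
    ∀ c, (g c).length = 2 ^ (4 * M + 2) := by
  have h1 : Fintype.card (Cd M) ≤ Fintype.card (Fin (2 ^ (4 * M + 2)) → Bool) := by
    rw [Fintype.card_fun, Fintype.card_bool, Fintype.card_fin]
    exact card_cd M
  obtain ⟨ι⟩ := Function.Embedding.nonempty_of_card_le h1
  exact ⟨fun c => List.ofFn (ι c), fun c c' h => ι.injective (List.ofFn_injective h),
    fun c => List.length_ofFn⟩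

/-- the string which describes a unitary oracle -/
noncomputable def ds (M : ℕ) (U : UOr) : List Bool := (exists_emb M).choose (cd M U)

theorem length_ds (M : ℕ) (U : UOr) : (ds M U).length = 2 ^ (4 * M + 2) :=
  (exists_emb M).choose_spec.2 _

theorem cd_of_ds {M : ℕ} {U U' : UOr} (h : ds M U = ds M U') : cd M U = cd M U' :=
  (exists_emb M).choose_spec.1 h

/-- **Unitary oracles with the same description are near each other.** -/
theorem cd_close {M : ℕ} {U U' : UOr} (h : cd M U = cd M U') {k : ℕ} (hk : k ≤ M) :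
    ClAt U U' k (2 / 2 ^ M) := by
  intro v
  have hent : ∀ u w, ‖(U.mat k - U'.mat k) u w‖ ≤ 2 / 4 ^ M := by
    intro u w
    have h1 := congrFun (congrFun (congrFun h ⟨k, by omega⟩) u) w
    have hb : ∀ V : UOr, |(V.mat k u w).re| ≤ 1 ∧ |(V.mat k u w).im| ≤ 1 := by
      intro V
      have h2 := entry_norm_bound_of_unitary (V.unitary k) u w
      exact ⟨(Complex.abs_re_le_norm _).trans h2, (Complex.abs_im_le_norm _).trans h2⟩
    have e4 : (2 : ℝ) ^ (2 * M) = 4 ^ M := by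
      rw [pow_mul]
      norm_num
    have hre := rn_close (hb U).1 (hb U').1 (congrFun h1 true)
    have him := rn_close (hb U).2 (hb U').2 (congrFun h1 false)
    rw [e4] at hre him
    rw [Matrix.sub_apply]
    refine (Complex.norm_le_abs_re_add_abs_im _).trans ?_
    rw [Complex.sub_re, Complex.sub_im]
    calc _ ≤ 1 / (4 : ℝ) ^ M + 1 / 4 ^ M := add_le_add hre him
      _ = 2 / 4 ^ M := by ring
  have h2 : ∀ u : Basis k, ‖∑ w, (U.mat k - U'.mat k) u w * v w‖ ^ 2 ≤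
      (2 ^ k * (2 / 4 ^ M) ^ 2) * ∑ w, ‖v w‖ ^ 2 := by
    intro u
    have h3 : ‖∑ w, (U.mat k - U'.mat k) u w * v w‖ ≤
        ∑ w, ‖(U.mat k - U'.mat k) u w‖ * ‖v w‖ :=
      (norm_sum_le _ _).trans (le_of_eq (sum_congr rfl fun w _ => norm_mul _ _))
    have h4 := Finset.sum_mul_sq_le_sq_mul_sq univ (fun w => ‖(U.mat k - U'.mat k) u w‖)
      (fun w => ‖v w‖)
    have h5 : ∑ w, ‖(U.mat k - U'.mat k) u w‖ ^ 2 ≤ 2 ^ k * (2 / 4 ^ M) ^ 2 := by
      have h6 : ∑ w : Basis k, ‖(U.mat k - U'.mat k) u w‖ ^ 2 ≤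
          ∑ _w : Basis k, ((2 : ℝ) / 4 ^ M) ^ 2 :=
        sum_le_sum fun w _ => pow_le_pow_left₀ (norm_nonneg _) (hent u w) 2
      refine h6.trans (le_of_eq ?_)
      rw [sum_const, card_univ, nsmul_eq_mul]
      simp
    calc ‖∑ w, (U.mat k - U'.mat k) u w * v w‖ ^ 2 ≤
          (∑ w, ‖(U.mat k - U'.mat k) u w‖ * ‖v w‖) ^ 2 :=
          pow_le_pow_left₀ (norm_nonneg _) h3 2
      _ ≤ _ := h4
      _ ≤ _ := mul_le_mul_of_nonneg_right h5 (sum_nonneg fun _ _ => by positivity)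
  refine (sum_le_sum fun u _ => h2 u).trans ?_
  rw [sum_const, card_univ, nsmul_eq_mul]
  have h3 : ((Fintype.card (Basis k) : ℕ) : ℝ) = 2 ^ k := by simp
  rw [h3, ← mul_assoc]
  refine mul_le_mul_of_nonneg_right ?_ (sum_nonneg fun _ _ => by positivity)
  have h4 : (2 : ℝ) ^ k ≤ 2 ^ M := pow_le_pow_right₀ (by norm_num) hk
  have h5 : (4 : ℝ) ^ M = 2 ^ M * 2 ^ M := by
    rw [← mul_pow]
    norm_num
  have h6 : (0 : ℝ) < 2 ^ M := by positivity
  have h7 : (0 : ℝ) < 2 ^ k := by positivity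
  rw [h5, div_pow, div_pow]
  calc (2 : ℝ) ^ k * (2 ^ k * (2 ^ 2 / (2 ^ M * 2 ^ M) ^ 2)) ≤
        2 ^ M * (2 ^ M * (2 ^ 2 / (2 ^ M * 2 ^ M) ^ 2)) := by gcongr
    _ = 2 ^ 2 / (2 ^ M) ^ 2 := by field_simp

/-- the operators on more than `M` qubits replaced by the identity -/
noncomputable def trunc (M : ℕ) (U : UOr) : UOr where
  mat k := if k ≤ M then U.mat k else 1
  unitary k := by
    split_ifs
    · exact U.unitary k
    · exact one_mem _

theorem ds_trunc (M : ℕ) (U : UOr) : ds M (trunc M U) = ds M U := by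
  have h : cd M (trunc M U) = cd M U := by
    funext k u w b
    unfold cd
    have h1 : (trunc M U).mat k.1 = U.mat k.1 := if_pos (by have := k.2; omega)
    rw [h1]
  unfold ds
  rw [h]

theorem ClAt.symm {U U' : UOr} {k : ℕ} {η : ℝ} (h : ClAt U U' k η) : ClAt U' U k η := by
  intro v
  refine le_trans (le_of_eq ?_) (h v)
  refine sum_congr rfl fun u _ => ?_
  rw [← norm_neg, ← sum_neg_distrib]
  congr 2
  refine sum_congr rfl fun w _ => ?_
  rw [Matrix.sub_apply, Matrix.sub_apply]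
  ring

end Pool.Agent.Helper11x.PT
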