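import Pool.Agent.Helper11x.PT.Uni

/-!
# The rotations by small angles of hidden phase states
-/

set_option autoImplicit false

namespace Pool.Agent.Helper11x.PT

open Pool.Agent.NPC Pool.Agent.H620R2.Gauge Finset
open Pool.Agent.H9x.Q (Basis bit ket)
open Pool.Agent.R562.QH (nrm nrm_sq nrm_nonneg nrm_add_le nrm_congr)
open Pool.Agent.H10x.QW (rd wr IsState rd_wr wr_wr wr_rd bit_wr sum_xch sum_wr unitary_norm proj
  proj_mul proj_star refl_unitary Fine)

variable {m : ℕ}

/-- the rotation by `θ` of the hidden states -/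
noncomputable def rot (k : ℕ) (θ : ℂ) (b f : List Bool → Bool) : Matrix (Basis m) (Basis m) ℂ :=
  1 + (θ - 1) • proj k b f

theorem rot_mul {k : ℕ} (hk : m / 2 + k ≤ m) (θ θ' : ℂ) (b f : List Bool → Bool) :
    (rot k θ b f * rot k θ' b f : Matrix (Basis m) (Basis m) ℂ) = rot k (θ * θ') b f := by
  unfold rot
  have h := proj_mul hk b f
  set P : Matrix (Basis m) (Basis m) ℂ := proj k b f with hP
  rw [add_mul, mul_add, mul_add, one_mul, one_mul, mul_one, Matrix.smul_mul, Matrix.mul_smul, h,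
    smul_smul]
  have h1 : (θ * θ' - 1) • P = (θ' - 1) • P + ((θ - 1) • P + ((θ - 1) * (θ' - 1)) • P) := by
    rw [← add_smul, ← add_smul]
    congr 1
    ring
  rw [h1, add_assoc]

theorem rot_one (k : ℕ) (b f : List Bool → Bool) :
    (rot k 1 b f : Matrix (Basis m) (Basis m) ℂ) = 1 := by
  unfold rot
  rw [sub_self, zero_smul, add_zero]

theorem rot_pow {k : ℕ} (hk : m / 2 + k ≤ m) (θ : ℂ) (b f : List Bool → Bool) (n : ℕ) :
    (rot k θ b f : Matrix (Basis m) (Basis m) ℂ) ^ n = rot k (θ ^ n) b f := by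
  induction n with
  | zero => rw [pow_zero, pow_zero, rot_one]
  | succ n ih => rw [pow_succ, ih, rot_mul hk, pow_succ]

theorem rot_false (k : ℕ) (θ : ℂ) (f : List Bool → Bool) :
    (rot k θ (fun _ => false) f : Matrix (Basis m) (Basis m) ℂ) = 1 := by
  unfold rot
  have : (proj k (fun _ => false) f : Matrix (Basis m) (Basis m) ℂ) = 0 := by
    ext u u'
    rw [Pool.Agent.H10x.QW.proj_apply, if_neg fun h => Bool.false_ne_true h.1, Matrix.zero_apply]
  rw [this, smul_zero, add_zero]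

theorem rot_star (k : ℕ) (θ : ℂ) (b f : List Bool → Bool) :
    star (rot k θ b f : Matrix (Basis m) (Basis m) ℂ) = rot k (star θ) b f := by
  unfold rot
  rw [star_add, star_one, star_smul, proj_star, star_sub, star_one]

theorem rot_unitary {k : ℕ} (hk : m / 2 + k ≤ m) {θ : ℂ} (hθ : ‖θ‖ = 1) (b f : List Bool → Bool) :
    (rot k θ b f : Matrix (Basis m) (Basis m) ℂ) ∈ Matrix.unitaryGroup (Basis m) ℂ := by
  rw [Matrix.mem_unitaryGroup_iff, rot_star, rot_mul hk]
  have : θ * star θ = 1 := by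
    rw [RCLike.star_def, Complex.mul_conj', hθ]
    norm_num
  rw [this, rot_one]

/-- a projection does not increase the norm -/
theorem proj_norm {k : ℕ} (hk : m / 2 + k ≤ m) (b f : List Bool → Bool) (v : Basis m → ℂ) :
    ∑ u, ‖∑ w, proj k b f u w * v w‖ ^ 2 ≤ ∑ u, ‖v u‖ ^ 2 := by
  have h1 := unitary_norm (refl_unitary hk b f) v
  have h2 : ∀ u : Basis m, ∑ w, (Pool.Agent.H10x.QW.refl k b f : Matrix (Basis m) (Basis m) ℂ) u w * v w =
      v u - 2 * ∑ w, proj k b f u w * v w := by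
    intro u
    have h3 : ∀ w : Basis m, (Pool.Agent.H10x.QW.refl k b f : Matrix _ _ ℂ) u w * v w =
        (1 : Matrix _ _ ℂ) u w * v w - 2 * (proj k b f u w * v w) := by
      intro w
      unfold Pool.Agent.H10x.QW.refl
      rw [Matrix.sub_apply, Matrix.add_apply]
      ring
    rw [sum_congr rfl fun w _ => h3 w, sum_sub_distrib, ← mul_sum]
    congr 1
    rw [Finset.sum_eq_single u]
    · rw [Matrix.one_apply_eq, one_mul]
    · intro w _ hw
      rw [Matrix.one_apply_ne (Ne.symm hw), zero_mul]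
    · intro h
      exact absurd (mem_univ _) h
  have h3 : ∀ u : Basis m, ‖∑ w, proj k b f u w * v w‖ ^ 2 ≤
      (‖v u‖ ^ 2 + ‖∑ w, (Pool.Agent.H10x.QW.refl k b f : Matrix (Basis m) (Basis m) ℂ) u w * v w‖ ^ 2) / 2 := by
    intro u
    rw [h2 u]
    set a := v u
    set c := ∑ w, proj k b f u w * v w
    have h4 : ‖c‖ ≤ (‖a‖ + ‖a - 2 * c‖) / 2 := by
      have h5 : ‖2 * c‖ ≤ ‖a‖ + ‖a - 2 * c‖ := by
        have h6 : 2 * c = a - (a - 2 * c) := by ring
        calc ‖2 * c‖ = ‖a - (a - 2 * c)‖ := by rw [← h6]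
          _ ≤ _ := norm_sub_le _ _
      rw [norm_mul] at h5
      have : ‖(2 : ℂ)‖ = 2 := by norm_num
      rw [this] at h5
      linarith
    have h5 := norm_nonneg c
    nlinarith [sq_nonneg (‖a‖ - ‖a - 2 * c‖), norm_nonneg a, norm_nonneg (a - 2 * c)]
  refine (sum_le_sum fun u _ => h3 u).trans (le_of_eq ?_)
  rw [← sum_div, sum_add_distrib, h1]
  ring

/-- the small angle -/
noncomputable def th (t : ℕ) : ℂ := Complex.exp (Complex.I * (Real.pi / 256 ^ t : ℝ))

theorem norm_th (t : ℕ) : ‖th t‖ = 1 := by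
  unfold th
  rw [mul_comm]
  exact Complex.norm_exp_ofReal_mul_I _

theorem th_pow_self (t : ℕ) : th t ^ 256 ^ t = -1 := by
  unfold th
  rw [← Complex.exp_nat_mul, ← Complex.exp_pi_mul_I]
  congr 1
  push_cast
  field_simp

theorem th_pow_gt {t s : ℕ} (h : t < s) : th t ^ 256 ^ s = 1 := by
  obtain ⟨d, rfl⟩ := Nat.exists_eq_add_of_lt h
  rw [show t + d + 1 = t + (d + 1) by ring, pow_add 256 t, pow_mul, th_pow_self]
  refine Even.neg_one_pow ?_
  exact (by decide : Even 256).pow_of_ne_zero (by omega)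

theorem th_near (t : ℕ) : ‖th t - 1‖ ≤ 4 / 256 ^ t := by
  have h := Real.norm_exp_I_mul_ofReal_sub_one_le (x := Real.pi / 256 ^ t)
  unfold th
  refine h.trans ?_
  rw [Real.norm_eq_abs, abs_of_nonneg (by positivity)]
  have := Real.pi_lt_four
  gcongr

/-- the data: for every number of qubits the size of the angle, the set of the marked indices and
the phases -/
abbrev Dat : Type := ℕ → ℕ × (List Bool → Bool) × (List Bool → Bool)

theorem hk0 (m : ℕ) : m / 2 + (m - m / 2) ≤ m := by omega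

/-- the unitary oracle with the data `κ` -/
noncomputable def uo (κ : Dat) : UOr where
  mat m := rot (m - m / 2) (th (κ m).1) (κ m).2.1 (κ m).2.2
  unitary m := rot_unitary (hk0 m) (norm_th _) _ _

theorem sum_one {l : List ℕ} {M : ℕ} (ψ : Basis M → ℂ) (z : Basis M) :
    ∑ w : Basis l.length, (1 : Matrix _ _ ℂ) (rd z l) w * ψ (wr z l w) = ψ z := by
  rw [Finset.sum_eq_single (rd z l)]
  · rw [Matrix.one_apply_eq, one_mul, wr_rd]
  · intro w _ hw
    rw [Matrix.one_apply_ne (Ne.symm hw), zero_mul]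
  · intro h
    exact absurd (mem_univ _) h

theorem sum_rot {l : List ℕ} {M k : ℕ} {θ : ℂ} {b f : List Bool → Bool} (ψ : Basis M → ℂ)
    (z : Basis M) :
    ∑ w : Basis l.length, (rot k θ b f : Matrix _ _ ℂ) (rd z l) w * ψ (wr z l w) =
      ψ z + (θ - 1) * ∑ w : Basis l.length, proj k b f (rd z l) w * ψ (wr z l w) := by
  have h1 : ∀ w : Basis l.length, (rot k θ b f : Matrix _ _ ℂ) (rd z l) w * ψ (wr z l w) =
      (1 : Matrix _ _ ℂ) (rd z l) w * ψ (wr z l w) +
      (θ - 1) * (proj k b f (rd z l) w * ψ (wr z l w)) := by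
    intro w
    unfold rot
    rw [Matrix.add_apply, Matrix.smul_apply, smul_eq_mul]
    ring
  rw [sum_congr rfl fun w _ => h1 w, sum_add_distrib, ← mul_sum, sum_one]

theorem near_uo {κ : Dat} {ε : ℕ → ℝ}
    (h : ∀ m, (κ m).2.1 = (fun _ => false) ∨ 4 / 256 ^ (κ m).1 ≤ ε m) : Near ε (uo κ) := by
  intro k v
  rcases h k with h1 | h1
  · have h2 : (uo κ).mat k = 1 := by
      show rot _ _ _ _ = _
      rw [h1, rot_false]
    rw [h2, sum_eq_zero]
    · positivity
    · intro u _
      rw [Finset.sum_eq_single u, Matrix.one_apply_eq, one_mul, sub_self, norm_zero]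
      · norm_num
      · intro w _ hw
        rw [Matrix.one_apply_ne (Ne.symm hw), zero_mul]
      · intro h
        exact absurd (mem_univ _) h
  · set θ := th (κ k).1 with hθ
    have h2 : ∀ u : Basis k, (∑ w, (uo κ).mat k u w * v w) - v u =
        (θ - 1) * ∑ w, proj (k - k / 2) (κ k).2.1 (κ k).2.2 u w * v w := by
      intro u
      have h3 : ∀ w : Basis k, (uo κ).mat k u w * v w = (1 : Matrix _ _ ℂ) u w * v w +
          (θ - 1) * (proj (k - k / 2) (κ k).2.1 (κ k).2.2 u w * v w) := by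
        intro w
        show (1 + (θ - 1) • proj _ _ _ : Matrix _ _ ℂ) u w * v w = _
        rw [Matrix.add_apply, Matrix.smul_apply, smul_eq_mul]
        ring
      rw [sum_congr rfl fun w _ => h3 w, sum_add_distrib, ← mul_sum, Finset.sum_eq_single u,
        Matrix.one_apply_eq, one_mul]
      · ring
      · intro w _ hw
        rw [Matrix.one_apply_ne (Ne.symm hw), zero_mul]
      · intro h
        exact absurd (mem_univ _) h
    rw [sum_congr rfl fun u _ => by rw [h2 u, norm_mul, mul_pow], ← mul_sum]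
    have h3 := proj_norm (hk0 k) (κ k).2.1 (κ k).2.2 v
    have h4 : ‖θ - 1‖ ^ 2 ≤ ε k ^ 2 := by
      refine pow_le_pow_left₀ (norm_nonneg _) ?_ 2
      exact (th_near _).trans h1
    calc ‖θ - 1‖ ^ 2 * ∑ u, ‖∑ w, proj (k - k / 2) (κ k).2.1 (κ k).2.2 u w * v w‖ ^ 2 ≤
          ‖θ - 1‖ ^ 2 * ∑ u, ‖v u‖ ^ 2 := mul_le_mul_of_nonneg_left h3 (by positivity)
      _ ≤ _ := mul_le_mul_of_nonneg_right h4 (by positivity)

/-- the gate of the identity acts as the identity -/
theorem act_one {M : ℕ} {A : Oracle} {U : UOr} {b : Bool} {c : ℕ} {l : List ℕ}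
    (hU : U.mat l.length = 1) (ψ : Basis M → ℂ) : (Gate.uni b c l).act A U ψ = ψ := by
  have h1 : U.op b l.length = 1 := by
    unfold UOr.op
    rw [hU, star_one, ite_self]
  funext z
  simp only [Gate.act]
  split_ifs with h
  · rw [h1, sum_one]
  · rfl

/-- the operator of the oracle or its inverse -/
theorem op_uo (κ : Dat) (b : Bool) (m : ℕ) : ∃ θ : ℂ, ‖θ‖ = 1 ∧
    (uo κ).op b m = rot (m - m / 2) θ (κ m).2.1 (κ m).2.2 := by
  unfold UOr.op
  cases b
  · exact ⟨th (κ m).1, norm_th _, rfl⟩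
  · refine ⟨star (th (κ m).1), by rw [norm_star, norm_th], ?_⟩
    rw [if_pos rfl, ← rot_star]
    rfl

/-- **Good phases have a small effect.** -/
theorem nrm_of_fine {M : ℕ} {T : ℝ} (hT : 0 ≤ T) {κ : Dat} {l : List ℕ} {φ : Basis M → ℂ}
    (hφ : nrm φ = 1) (h : Fine T (κ l.length).2.2 (l.length - l.length / 2) l φ)
    (A : Oracle) (b : Bool) (c : ℕ) :
    nrm ((Gate.uni b c l).act A (uo κ) φ - φ) ^ 2 ≤ 4 * T / 2 ^ (l.length - l.length / 2) := by
  obtain ⟨θ, hθ, hop⟩ := op_uo κ b l.length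
  set U' : Pool.Agent.H10x.QW.UOracle := Pool.Agent.H10x.QW.uo (fun m => m - m / 2) hk0
    (fun _ => ((κ l.length).2.1, (κ l.length).2.2)) (fun _ => True) with hU'
  have h1 : U'.mat l.length = Pool.Agent.H10x.QW.refl (l.length - l.length / 2) (κ l.length).2.1
    (κ l.length).2.2 := Pool.Agent.H10x.QW.uo_pos trivial
  have h2 := Pool.Agent.H10x.QW.nrm_of_fine hT (hk0 l.length) hφ h (A := A) (c := c) h1
  refine le_trans ?_ h2
  rw [nrm_sq, nrm_sq]
  refine sum_le_sum fun z _ => ?_
  rw [Pi.sub_apply, Pi.sub_apply, Pool.Agent.H10x.QW.act_refl h1]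
  simp only [Gate.act]
  split_ifs with h3
  · rw [hop, sum_rot, add_sub_cancel_left, norm_mul, norm_mul]
    have h4 : ‖θ - 1‖ ≤ 2 := by
      refine (norm_sub_le _ _).trans ?_
      rw [hθ, norm_one]
      norm_num
    have h5 : ‖(-2 : ℂ)‖ = 2 := by
      rw [norm_neg]
      norm_num
    rw [h5]
    gcongr
  · rw [sub_self]

/-- the gate of the unitary oracle applied several times -/
theorem run_rep {M : ℕ} {A : Oracle} {U : UOr} {c : ℕ} {l : List ℕ} (hnd : l.Nodup)
    (hlt : ∀ q ∈ l, q < M) (hc : c ∉ l) (N : ℕ) : ∀ (ψ : Basis M → ℂ) (z : Basis M),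
    run A U (List.replicate N (Gate.uni false c l)) ψ z =
      if bit z c = true then
        ∑ w : Basis l.length, (U.mat l.length ^ N) (rd z l) w * ψ (wr z l w) else ψ z := by
  induction N with
  | zero =>
    intro ψ z
    rw [pow_zero, sum_one, ite_self]
    rfl
  | succ N ih =>
    intro ψ z
    rw [List.replicate_succ]
    simp only [run]
    rw [ih]
    by_cases hz : bit z c = true
    · rw [if_pos hz, if_pos hz]
      have h1 : ∀ w : Basis l.length, (Gate.uni false c l).act A U ψ (wr z l w) =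
          ∑ w' : Basis l.length, U.mat l.length w w' * ψ (wr z l w') := by
        intro w
        simp only [Gate.act]
        rw [if_pos ⟨hnd, hlt, hc, by rw [bit_wr hc, hz]⟩, rd_wr hnd hlt]
        simp only [wr_wr]
        rfl
      rw [sum_congr rfl fun w _ => by rw [h1 w, mul_sum], sum_comm]
      refine sum_congr rfl fun w' _ => ?_
      rw [pow_succ, Matrix.mul_apply, sum_mul]
      exact sum_congr rfl fun w _ => by ring
    · rw [if_neg hz, if_neg hz]
      simp only [Gate.act]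
      rw [if_neg fun h => hz h.2.2.2]

end Pool.Agent.Helper11x.PT
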