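import Pool.Agent.Helper11x.PT.Lang

/-!
# The choice of the number of the qubits and of the angle
-/

set_option autoImplicit false

namespace Pool.Agent.Helper11x.PT

open Pool.Agent.NPC Pool.Agent.H622R2 Pool.Agent.H620R2.Gauge Pool.Agent.H622R2.Exp Filter Finset

theorem exists_root (D : ℕ) : ∃ ρ : ℝ, 1 < ρ ∧ ρ ^ (4 * (D + 1)) = 2 ∧
    ∀ m : ℕ, (2 : ℝ) ^ (-((1 / (4 * (D + 1) : ℕ) : ℝ) * m)) = (ρ ^ m)⁻¹ := by
  refine ⟨(2 : ℝ) ^ (1 / (4 * (D + 1) : ℕ) : ℝ), Real.one_lt_rpow (by norm_num) (by positivity),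
    ?_, fun m => ?_⟩
  · rw [← Real.rpow_natCast, ← Real.rpow_mul (by norm_num), one_div, inv_mul_cancel₀,
      Real.rpow_one]
    positivity
  · rw [Real.rpow_neg (by norm_num), Real.rpow_mul (by norm_num), Real.rpow_natCast]

theorem ev_lin {ρ : ℝ} (hρ : 1 < ρ) : ∀ᶠ m : ℕ in atTop, ((m : ℝ) + 1) ≤ ρ ^ m := by
  have h1 := tendsto_self_mul_const_pow_of_lt_one (r := ρ⁻¹) (by positivity)
    (inv_lt_one_of_one_lt₀ hρ)
  have h2 := tendsto_pow_atTop_nhds_zero_of_lt_one (r := ρ⁻¹) (by positivity)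
    (inv_lt_one_of_one_lt₀ hρ)
  have h3 := h1.add h2
  rw [add_zero] at h3
  filter_upwards [h3.eventually (ge_mem_nhds (show (0 : ℝ) < 1 by norm_num))] with m hm
  have h4 : (0 : ℝ) < ρ ^ m := by positivity
  rw [inv_pow] at hm
  have h5 : ((m : ℝ) * (ρ ^ m)⁻¹ + (ρ ^ m)⁻¹) * ρ ^ m = m + 1 := by
    field_simp
  calc (m : ℝ) + 1 = ((m : ℝ) * (ρ ^ m)⁻¹ + (ρ ^ m)⁻¹) * ρ ^ m := h5.symm
    _ ≤ 1 * ρ ^ m := mul_le_mul_of_nonneg_right hm h4.le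
    _ = ρ ^ m := one_mul _

/-- **The choice of the number of the qubits and of the angle.** -/
theorem exists_mt {ε : ℕ → ℝ} (hε : ¬ ExpSmall ε) (Q : Polynomial ℕ) (N : ℕ) :
    ∃ m t : ℕ, N ≤ m ∧ m < 255 * 256 ^ t ∧ 4 / 256 ^ t ≤ ε m ∧
      Q.eval (256 ^ t + m) ≤ 2 ^ (m / 2) := by
  obtain ⟨D, _, hD⟩ := YAux.poly_bound Q
  obtain ⟨ρ, hρ1, hρ2, hρ3⟩ := exists_root D
  have h1 : ∃ᶠ m : ℕ in atTop, ¬ ε m ≤ (2 : ℝ) ^ (-((1 / (4 * (D + 1) : ℕ) : ℝ) * m)) := by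
    intro h
    refine hε ⟨1 / (4 * (D + 1) : ℕ), by positivity, ?_⟩
    filter_upwards [h] with m hm
    exact not_not.1 hm
  obtain ⟨m, h2, h3, h4, h5⟩ := (h1.and_eventually ((ev_lin hρ1).and
    ((eventually_ge_atTop N).and (eventually_ge_atTop (48 * D + 2))))).exists
  rw [hρ3, not_le] at h2
  have hρ0 : (0 : ℝ) < ρ ^ m := by positivity
  have hε0 : 0 < ε m := lt_trans (by positivity) h2
  set X : ℝ := 4 * ρ ^ m with hX
  have hX1 : 1 ≤ X := by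
    have : (0 : ℝ) ≤ m := Nat.cast_nonneg m
    linarith
  obtain ⟨s, hs1, hs2⟩ := exists_nat_pow_near hX1 (show (1 : ℝ) < 256 by norm_num)
  have hn : ((256 ^ (s + 1) + m : ℕ) : ℝ) + 2 ≤ 2 ^ 12 * ρ ^ m := by
    push_cast
    rw [pow_succ]
    have : (0 : ℝ) ≤ m := Nat.cast_nonneg m
    have h6 : (256 : ℝ) ^ s ≤ 4 * ρ ^ m := hs1
    linarith
  refine ⟨m, s + 1, h4, ?_, ?_, ?_⟩
  · have h6 : (m : ℝ) < 255 * 256 ^ (s + 1) := by
      have h7 : (0 : ℝ) < 256 ^ (s + 1) := by positivity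
      have : (0 : ℝ) ≤ m := Nat.cast_nonneg m
      linarith
    exact_mod_cast h6
  · rw [div_le_iff₀ (by positivity)]
    have h6 : 1 < ε m * ρ ^ m := by
      have := mul_lt_mul_of_pos_right h2 hρ0
      rwa [inv_mul_cancel₀ hρ0.ne'] at this
    have h7 : ε m * X ≤ ε m * 256 ^ (s + 1) := mul_le_mul_of_nonneg_left hs2.le hε0.le
    rw [hX] at h7
    linarith
  · have h6 := hD (256 ^ (s + 1) + m)
    refine h6.trans ?_
    set n := 256 ^ (s + 1) + m with hnn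
    have h7 : (((n + 2) ^ D : ℕ) : ℝ) ^ 4 ≤ ((2 ^ (m / 2) : ℕ) : ℝ) ^ 4 := by
      push_cast
      calc (((n : ℝ) + 2) ^ D) ^ 4 ≤ ((2 ^ 12 * ρ ^ m) ^ D) ^ 4 := by gcongr
        _ = 2 ^ (48 * D) * (ρ ^ (4 * D)) ^ m := by
          rw [← pow_mul, mul_pow, ← pow_mul, ← pow_mul, ← pow_mul]
          congr 1
          · congr 1
            ring
          · congr 1
            ring
        _ ≤ 2 ^ (48 * D) * (ρ ^ (4 * (D + 1))) ^ m := by
          gcongr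
          · exact hρ1.le
          · omega
        _ = 2 ^ (48 * D + m) := by rw [hρ2, ← pow_add]
        _ ≤ 2 ^ (m / 2 * 4) := pow_le_pow_right₀ (by norm_num) (by omega)
        _ = (2 ^ (m / 2)) ^ 4 := by rw [pow_mul]
    have h8 := le_of_pow_le_pow_left₀ (by norm_num) (by positivity) h7
    exact_mod_cast h8

end Pool.Agent.Helper11x.PT
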