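import Pool.Agent.Helper11x.PT.Size

/-!
# The language of the marked indices is not in `QCPH` with polynomial advice
-/

set_option autoImplicit false

namespace Pool.Agent.Helper11x.PT

open Pool.Agent.NPC Pool.Agent.H622R2 Pool.Agent.H620R2.Gauge Pool.Agent.H622R2.Exp Filter Finset
open Pool.Agent.H9x.Q (Basis bit ket ket_norm)
open Pool.Agent.R562.QH (nrm nrm_sq nrm_nonneg nrm_add_le nrm_congr)
open Pool.Agent.H10x.QW (rd wr IsState Alt Alt.mono Alt.not Fine ofB ofB_ofFn exists_fine count_lt)
open Pool.Agent.H9x.V1 (hs mem_hs card_hs finite_ext)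

/-- the requirement for a verifier with classical witnesses -/
def Req (A : Oracle) (F : Verifier) (p : Polynomial ℕ) (K : ℕ) (q : Polynomial ℕ) (κ : Dat) : Prop :=
  ∀ h : ℕ → List Bool, (∀ n, (h n).length ≤ q.eval n) →
    ¬ ∀ x : List Bool,
      (x ∈ LL κ → Alt (p.eval (pairBits (h x.length) x).length)
        (fun w => 2 / 3 ≤ F.accC A (uo κ) (pairBits (h x.length) x) w) K true []) ∧
      (x ∉ LL κ → Alt (p.eval (pairBits (h x.length) x).length)
        (fun w => F.accC A (uo κ) (pairBits (h x.length) x) w ≤ 1 / 3) K false [])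

/-- the list of the gate number `t` -/
def lst (C : List Gate) (t : ℕ) : List ℕ :=
  match C[t]? with
  | some (.uni _ _ l) => l
  | _ => []

/-- **Phases which are not noticed.** -/
theorem exists_ph (A : Oracle) (κ₀ : Dat) (F : Verifier) {S : ℕ → ℕ} (hS : Monotone S)
    (hF : ∀ n, (F.circ n).length ≤ S n ∧ F.qubits n ≤ S n ∧ n + 1 ≤ S n) (a m : ℕ) :
    ∃ f : List Bool → Bool, ∀ (y : List Bool) (w : Basis (F.wit.eval y.length)) (C₁ : List Gate)
      (b : Bool) (c : ℕ) (l : List ℕ) (C₂ : List Gate), y.length ≤ a →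
      F.circ y.length = C₁ ++ Gate.uni b c l :: C₂ → l.length = m →
      Fine (16 * S a) f (m - m / 2) l (run A (uo κ₀) C₁ (F.start y (ket w))) := by
  classical
  set R := S a with hR
  have hR0 : 1 ≤ R := by have := (hF a).2.2; omega
  let J := (y : List Bool) × Basis (F.wit.eval y.length) × ℕ
  let T : Finset J := (hs a).sigma fun y =>
    ((univ : Finset (Basis (F.wit.eval y.length))) ×ˢ range R)
  let T' : Finset J := T.filter fun j =>
    (lst (F.circ j.1.length) j.2.2).length = m ∧ j.1.length ≤ a
  have hcard : T'.card ≤ R * (2 ^ (R + 1) * (2 ^ R * R)) := by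
    have h0 : T'.card ≤ (T.filter fun j => j.1.length ≤ a).card :=
      card_le_card fun j hj => by
        rw [mem_filter] at hj ⊢
        exact ⟨hj.1, hj.2.2⟩
    have h1 : (T.filter fun j => j.1.length ≤ a) ⊆ ((hs a).filter fun y => y.length ≤ a).sigma
        fun y => ((univ : Finset (Basis (F.wit.eval y.length))) ×ˢ range R) := by
      intro j hj
      rw [mem_filter] at hj
      have h2 := mem_sigma.1 hj.1
      exact mem_sigma.2 ⟨mem_filter.2 ⟨h2.1, hj.2⟩, h2.2⟩
    refine h0.trans ((card_le_card h1).trans ?_)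
    rw [card_sigma]
    refine (sum_le_card_nsmul _ _ (2 ^ R * R) fun y hy => ?_).trans ?_
    · rw [mem_filter] at hy
      rw [card_product, card_range, card_univ]
      refine Nat.mul_le_mul_right _ ?_
      have h1 := (hF y.length).2.1
      have h3 := hS hy.2
      unfold Verifier.qubits at h1
      have h2 : Fintype.card (Basis (F.wit.eval y.length)) = 2 ^ (F.wit.eval y.length) := by simp
      rw [h2]
      exact Nat.pow_le_pow_right (by norm_num) (by omega)
    · rw [smul_eq_mul]
      have h2 : ((hs a).filter fun y => y.length ≤ a).card ≤ 2 ^ (R + 1) := by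
        refine (card_filter_le _ _).trans ((card_hs a).trans ?_)
        exact Nat.pow_le_pow_right (by norm_num) (by have := (hF a).2.2; omega)
      exact (Nat.mul_le_mul_right _ h2).trans (Nat.le_mul_of_pos_left _ hR0)
  obtain ⟨f, hf⟩ := exists_fine (J := J) T' (m - m / 2) (fun j => F.qubits j.1.length)
    (fun j => lst (F.circ j.1.length) j.2.2)
    (fun j => run A (uo κ₀) ((F.circ j.1.length).take j.2.2) (F.start j.1 (ket j.2.1)))
    (m := m) (fun j hj => (mem_filter.1 hj).2.1) (B := R)
    (fun j hj => ((hF _).2.1).trans (hS (mem_filter.1 hj).2.2))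
    (T := 16 * R) (by positivity) (by
      refine lt_of_le_of_lt ?_ (count_lt hR0)
      refine mul_le_mul_of_nonneg_right ?_ (by positivity)
      exact_mod_cast hcard)
  refine ⟨f, fun y w C₁ b c l C₂ h1 h2 h3 => ?_⟩
  have ht : C₁.length < (F.circ y.length).length := by
    rw [h2]
    simp
  have hlen := (hF y.length).1
  have hmono := hS h1
  have hget : lst (F.circ y.length) C₁.length = l := by
    unfold lst
    rw [h2]
    simp
  have hj : (⟨y, w, C₁.length⟩ : J) ∈ T' := by
    rw [mem_filter]
    refine ⟨?_, ?_, h1⟩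
    · simp only [T, mem_sigma, mem_range, mem_product, mem_univ, true_and]
      exact ⟨mem_hs h1, by omega⟩
    · show (lst (F.circ y.length) C₁.length).length = m
      rw [hget]
      exact h3
  have h4 := hf _ hj
  simp only at h4
  rw [hget] at h4
  have h5 : (F.circ y.length).take C₁.length = C₁ := by
    rw [h2, List.take_left]
  rw [h5] at h4
  exact h4

/-- **One stage.** -/
theorem stage {ε : ℕ → ℝ} (hε : ¬ ExpSmall ε) (A : Oracle) (F : Verifier) (p : Polynomial ℕ)
    (K : ℕ) (q : Polynomial ℕ) (N : ℕ) (κ : Dat)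
    (hκ : ∀ m, (κ m).2.1 = (fun _ => false) ∨ 4 / 256 ^ (κ m).1 ≤ ε m) :
    ∃ (κ' : Dat) (N' : ℕ), (∀ m, (κ' m).2.1 = (fun _ => false) ∨ 4 / 256 ^ (κ' m).1 ≤ ε m) ∧
      (∀ m < N, κ' m = κ m) ∧ ∀ κ'' : Dat, (∀ m < N', κ'' m = κ' m) → Req A F p K q κ'' := by
  classical
  obtain ⟨sp, hsp⟩ := F.size
  set S : Polynomial ℕ := sp + F.wit + F.anc + Polynomial.X + Polynomial.C 1 with hSdef
  have hSe : ∀ n, S.eval n = sp.eval n + F.wit.eval n + F.anc.eval n + n + 1 := by
    intro n
    rw [hSdef]
    simp
  have hSm : Monotone fun n => S.eval n := fun a b h => eval_mono S h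
  have hF : ∀ n, (F.circ n).length ≤ S.eval n ∧ F.qubits n ≤ S.eval n ∧ n + 1 ≤ S.eval n := by
    intro n
    have h1 := (hsp n).1
    rw [hSe]
    unfold Verifier.qubits
    omega
  have hSh : ∀ n, Short (S.eval n) (F.circ n) := by
    intro n
    have h1 := (hsp n).2
    have h2 : sp.eval n ≤ S.eval n := by
      rw [hSe]
      omega
    exact ⟨fun l r h => (h1.1 l r h).trans h2, fun b c l h => (h1.2 b c l h).trans h2⟩
  -- the choice of the parameters
  obtain ⟨m, t, hNm, hmt, hεm, hQ⟩ := exists_mt hε (Polynomial.C (2 ^ 14) *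
    (S.comp (Polynomial.C 2 * q + Polynomial.C 1 + Polynomial.X)) ^ 3 + q + Polynomial.C 2) N
  simp only [Polynomial.eval_add, Polynomial.eval_mul, Polynomial.eval_C, Polynomial.eval_comp,
    Polynomial.eval_X, Polynomial.eval_pow] at hQ
  set n := 256 ^ t + m with hn
  set a := 2 * q.eval n + 1 + n with ha
  set R := S.eval a with hR
  have hR1 : 1 ≤ R := by have := (hF a).2.2; omega
  have hti : ti n = t := ti_add hmt
  have hdm : dm n = m := dm_add hmt
  have hq2 : q.eval n + 1 < 2 ^ (m / 2) := by omega
  have hR3 : 2 ^ 14 * R ^ 3 ≤ 2 ^ (m - m / 2) := by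
    have h1 : 2 ^ (m / 2) ≤ 2 ^ (m - m / 2) := Nat.pow_le_pow_right (by norm_num) (by omega)
    omega
  set κ₀ : Dat := fun s => if s < N then κ s else nul s with hκ₀
  have hm0 : (κ₀ m).2.1 = fun _ => false := by
    rw [hκ₀]
    simp only
    rw [if_neg (by omega)]
    rfl
  obtain ⟨f, hf⟩ := exists_ph A κ₀ F hSm hF a m
  -- the inputs
  set pad : Basis (m / 2) → List Bool := fun x' => List.ofFn x' ++
    List.replicate (n - m / 2) false with hpad
  have hpl : ∀ x', (pad x').length = n := by
    intro x'
    simp only [hpad, List.length_append, List.length_ofFn, List.length_replicate]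
    omega
  have hix : ∀ x', ix (pad x') = List.ofFn x' := by
    intro x'
    unfold ix
    rw [hpl, hdm, hpad]
    simp only
    rw [List.take_append_of_le_length (by simp), List.take_of_length_le (by simp)]
  -- the functions computed with advice
  let fn : List Bool → (Basis (m / 2) → Bool) := fun h x' =>
    decide (Alt (p.eval (pairBits h (pad x')).length)
      (fun w => 1 / 2 ≤ F.accC A (uo κ₀) (pairBits h (pad x')) w) K true [])
  have hex : ∃ b' : Basis (m / 2) → Bool, b' ∉ (hs (q.eval n)).image fn := by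
    by_contra hcon
    push Not at hcon
    have h1 : (univ : Finset (Basis (m / 2) → Bool)) ⊆ (hs (q.eval n)).image fn :=
      fun r _ => hcon r
    have h2 := (card_le_card h1).trans (card_image_le.trans (card_hs _))
    rw [card_univ, Fintype.card_fun, Fintype.card_bool, Fintype.card_fun, Fintype.card_bool,
      Fintype.card_fin] at h2
    have h3 := (Nat.pow_lt_pow_iff_right (show 1 < 2 by norm_num)).2 hq2
    omega
  obtain ⟨b', hb'⟩ := hex
  refine ⟨fun s => if s < N then κ s else if s = m then (t, ofB b', f) else nul s,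
    R + m + 1, fun s => ?_, fun s hs => if_pos hs, ?_⟩
  · simp only
    split_ifs with h1 h2
    · exact hκ s
    · subst h2
      exact Or.inr hεm
    · exact Or.inl rfl
  intro κ'' hκ'' h hh hcon
  have hκm : κ'' m = (t, ofB b', f) := by
    rw [hκ'' m (by omega)]
    simp only
    rw [if_neg (by omega), if_pos trivial]
  have hκo : ∀ s, s ≤ R → s ≠ m → κ'' s = κ₀ s := by
    intro s hs hsm
    rw [hκ'' s (by omega)]
    simp only [hκ₀]
    by_cases h1 : s < N
    · rw [if_pos h1, if_pos h1]
    · rw [if_neg h1, if_neg h1, if_neg hsm]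
  -- the approximation
  have happ : ∀ (y : List Bool) (w : Basis (F.wit.eval y.length)), y.length ≤ a →
      |F.acc A (uo κ'') y (ket w) - F.acc A (uo κ₀) y (ket w)| ≤ 1 / 8 := by
    intro y w hy
    have hs0 : (0 : ℝ) < R := by exact_mod_cast hR1
    have hn1 : nrm (F.start y (ket w)) = 1 := nrm_start _ _ (ket_norm w)
    have h1 := acc_diff F A (uo κ₀) (uo κ'') y (φ := ket w) (ket_norm w) (ε := 1 / (16 * R)) (by
      intro C₁ g C₂ hC
      have hsame : ∀ φ : Basis (F.qubits y.length) → ℂ,
          g.act A (uo κ'') φ = g.act A (uo κ₀) φ →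
          nrm (g.act A (uo κ'') φ - g.act A (uo κ₀) φ) ≤ 1 / (16 * R) := by
        intro φ h
        rw [h, sub_self, nrm_zero]
        positivity
      cases g with
      | std g => exact hsame _ rfl
      | uni b c l =>
        by_cases hl : l.length = m
        · have h2 : (uo κ₀).mat l.length = 1 := by
            rw [hl]
            exact uo_nul hm0
          rw [act_one h2]
          have h3 := hf y w C₁ b c l C₂ hy hC hl
          have h4 := nrm_of_fine (T := 16 * R) (by positivity) (κ := κ'') (l := l)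
            (φ := run A (uo κ₀) C₁ (F.start y (ket w))) (by rw [nrm_run, hn1]) (by
              rw [hl, hκm]
              exact h3) A b c
          have h5 : (2 : ℝ) ^ 14 * (R : ℝ) ^ 3 ≤ 2 ^ (m - m / 2) := by
            exact_mod_cast hR3
          rw [hl] at h4
          have h6 : 4 * (16 * (R : ℝ)) / 2 ^ (m - m / 2) ≤ (1 / (16 * R)) ^ 2 := by
            have hK : (0 : ℝ) < 2 ^ (m - m / 2) := by positivity
            rw [div_le_iff₀ hK]
            have h7 : (1 / (16 * (R : ℝ))) ^ 2 = 1 / (256 * R ^ 2) := by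
              field_simp
              norm_num
            rw [h7]
            have h8 : 1 / (256 * (R : ℝ) ^ 2) * (2 ^ 14 * R ^ 3) ≤
                1 / (256 * R ^ 2) * 2 ^ (m - m / 2) :=
              mul_le_mul_of_nonneg_left h5 (by positivity)
            refine le_trans (le_of_eq ?_) h8
            field_simp
            norm_num
          exact le_of_sq_le_sq (h4.trans h6) (by positivity)
        · refine hsame _ ?_
          by_cases hlR : l.length ≤ R
          · funext z
            simp only [Gate.act]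
            have h2 : (uo κ'').mat l.length = (uo κ₀).mat l.length := by
              show rot _ _ _ _ = rot _ _ _ _
              rw [hκo _ hlR hl]
            rw [op_congr h2]
          · exfalso
            apply hlR
            have h2 := (hSh y.length).2 b c l (by rw [hC]; simp)
            exact h2.trans (hSm hy))
    have h3 : ((F.circ y.length).length : ℝ) ≤ R := by
      exact_mod_cast ((hF y.length).1).trans (hSm hy)
    have h4 : ((F.circ y.length).length : ℝ) * (1 / (16 * R)) ≤ 1 / 16 := by
      calc ((F.circ y.length).length : ℝ) * (1 / (16 * R)) ≤ R * (1 / (16 * R)) := by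
            gcongr
        _ = 1 / 16 := by field_simp
    linarith
  -- the contradiction
  apply hb'
  rw [mem_image]
  refine ⟨h n, mem_hs (hh n), ?_⟩
  funext x'
  have hcx := hcon (pad x')
  rw [hpl] at hcx
  have hmem : pad x' ∈ LL κ'' ↔ b' x' = true := by
    unfold LL
    rw [Set.mem_ofPred_eq, hpl, hdm, hti, hix, hκm]
    simp only [true_and, ofB_ofFn]
  set y := pairBits (h n) (pad x') with hy
  have hya : y.length ≤ a := by
    rw [hy, length_pairBits, hpl, ha]
    have := hh n
    omega
  show decide (Alt (p.eval y.length) (fun w => 1 / 2 ≤ F.accC A (uo κ₀) y w) K true []) = b' x'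
  by_cases hbx : b' x' = true
  · rw [hbx, decide_eq_true_eq]
    refine Alt.mono (fun w hw => ?_) _ _ _ (hcx.1 (hmem.2 hbx))
    have h3 := abs_le.1 (happ y (fun i => w.getD i false) hya)
    unfold Verifier.accC at hw ⊢
    linarith [h3.2]
  · rw [Bool.not_eq_true] at hbx
    rw [hbx, decide_eq_false_iff_not]
    refine Alt.not K true [] (Alt.mono (fun w hw => ?_) _ _ _
      (hcx.2 (fun hm => by rw [hmem, hbx] at hm; exact absurd hm (by simp))))
    have h3 := abs_le.1 (happ y (fun i => w.getD i false) hya)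
    unfold Verifier.accC at hw ⊢
    rw [not_le]
    linarith [h3.1]

/-- **Unitary oracles near the identity which separate.** -/
theorem lower {ε : ℕ → ℝ} (hε : ¬ ExpSmall ε) (A : Oracle) : ∃ U : UOr, Near ε U ∧
    ∃ L, IsQMA1 A U L ∧ ¬ IsQCPHpoly A U L Lᶜ := by
  have h1 := CC.poly_countable
  have : Nonempty Verifier := ⟨VF⟩
  obtain ⟨en, hen⟩ := exists_surjective_nat (Verifier × Polynomial ℕ × ℕ × Polynomial ℕ)
  obtain ⟨κ, hκ, hr⟩ := finite_ext (β := ℕ × (List Bool → Bool) × (List Bool → Bool))
    (fun m v => v.2.1 = (fun _ => false) ∨ 4 / 256 ^ v.1 ≤ ε m)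
    (fun j κ => Req A (en j).1 (en j).2.1 (en j).2.2.1 (en j).2.2.2 κ)
    ⟨nul, fun _ => Or.inl rfl⟩
    (fun j N κ hκ => by
      obtain ⟨κ', N', h1, h2, h3⟩ := stage hε A (en j).1 (en j).2.1 (en j).2.2.1 (en j).2.2.2 N κ hκ
      exact ⟨κ', N', h1, h2, fun κ'' _ h => h3 κ'' h⟩)
  refine ⟨uo κ, near_uo hκ, LL κ, lang_in A κ, ?_⟩
  rintro ⟨F, p, K, q, h, hh, hF⟩
  obtain ⟨j, hj⟩ := hen (F, p, K, q)
  have h2 := hr j
  rw [hj] at h2
  exact h2 h hh hF

end Pool.Agent.Helper11x.PT
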