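import Pool.Agent.Helper11x.PT.Defs

/-!
# The gates are isometries; the hybrid argument
-/

set_option autoImplicit false

namespace Pool.Agent.Helper11x.PT

open Pool.Agent.NPC Pool.Agent.H622R2 Pool.Agent.H620R2.Gauge Pool.Agent.H622R2.Exp
  Pool.Agent.TH678.ETH Pool.Agent.TH678.SETH Pool.Agent.TH678.RS Finset
open Pool.Agent.H9x.Q (Basis bit ket)
open Pool.Agent.R562.QH (nrm nrm_sq nrm_nonneg nrm_add_le nrm_congr)
open Pool.Agent.H10x.QW (rd wr IsState rd_wr wr_wr wr_rd bit_wr sum_xch sum_wr unitary_norm)

variable {m : ℕ}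

theorem UOr.op_unitary (U : UOr) (b : Bool) (k : ℕ) :
    U.op b k ∈ Matrix.unitaryGroup (Basis k) ℂ := by
  unfold UOr.op
  split_ifs
  · exact Unitary.star_mem (U.unitary k)
  · exact U.unitary k

/-- **The gates are isometries.** -/
theorem act_norm (A : Oracle) (U : UOr) (g : Gate) (ψ : Basis m → ℂ) :
    ∑ z, ‖g.act A U ψ z‖ ^ 2 = ∑ z, ‖ψ z‖ ^ 2 := by
  cases g with
  | std g => exact Pool.Agent.H9x.Q.act_norm A g ψ
  | uni b c l =>
    by_cases h : l.Nodup ∧ (∀ q ∈ l, q < m) ∧ c ∉ l
    · obtain ⟨h1, h2, h3⟩ := h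
      have key : (2 ^ l.length : ℝ) * ∑ z, ‖(Gate.uni b c l).act A U ψ z‖ ^ 2 =
          (2 ^ l.length : ℝ) * ∑ z, ‖ψ z‖ ^ 2 := by
        rw [← sum_wr h1 h2 (fun z => ‖(Gate.uni b c l).act A U ψ z‖ ^ 2),
          ← sum_wr h1 h2 (fun z => ‖ψ z‖ ^ 2)]
        refine sum_congr rfl fun z _ => ?_
        by_cases hz : bit z c = true
        · rw [← unitary_norm (U.op_unitary b l.length) (fun w => ψ (wr z l w))]
          refine sum_congr rfl fun w _ => ?_
          simp only [Gate.act]
          rw [if_pos ⟨h1, h2, h3, by rw [bit_wr h3, hz]⟩, rd_wr h1 h2]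
          simp only [wr_wr]
        · refine sum_congr rfl fun w _ => ?_
          simp only [Gate.act]
          rw [if_neg]
          rintro ⟨_, _, _, h⟩
          rw [bit_wr h3] at h
          exact hz h
      exact mul_left_cancel₀ (by positivity) key
    · refine sum_congr rfl fun z _ => ?_
      simp only [Gate.act]
      rw [if_neg]
      rintro ⟨h1, h2, h3, _⟩
      exact h ⟨h1, h2, h3⟩

theorem act_sub (A : Oracle) (U : UOr) (g : Gate) (ψ φ : Basis m → ℂ) :
    g.act A U (ψ - φ) = g.act A U ψ - g.act A U φ := by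
  cases g with
  | std g => exact Pool.Agent.H9x.Q.act_sub A g ψ φ
  | uni b c l =>
    funext z
    simp only [Gate.act, Pi.sub_apply]
    split_ifs
    · rw [← sum_sub_distrib]
      exact sum_congr rfl fun w _ => by ring
    · rfl

theorem nrm_act (A : Oracle) (U : UOr) (g : Gate) (ψ : Basis m → ℂ) :
    nrm (g.act A U ψ) = nrm ψ := nrm_congr (act_norm A U g ψ)

theorem run_sub (A : Oracle) (U : UOr) (C : List Gate) : ∀ ψ φ : Basis m → ℂ,
    run A U C (ψ - φ) = run A U C ψ - run A U C φ := by
  induction C with
  | nil => intro ψ φ; rfl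
  | cons g C ih => intro ψ φ; simp only [run]; rw [act_sub, ih]

theorem nrm_run (A : Oracle) (U : UOr) (C : List Gate) : ∀ ψ : Basis m → ℂ,
    nrm (run A U C ψ) = nrm ψ := by
  induction C with
  | nil => intro ψ; rfl
  | cons g C ih => intro ψ; simp only [run]; rw [ih, nrm_act]

theorem run_append (A : Oracle) (U : UOr) (C C' : List Gate) : ∀ ψ : Basis m → ℂ,
    run A U (C ++ C') ψ = run A U C' (run A U C ψ) := by
  induction C with
  | nil => intro ψ; rfl
  | cons g C ih => intro ψ; simp only [List.cons_append, run]; rw [ih]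

theorem nrm_zero : nrm (0 : Basis m → ℂ) = 0 := by
  have := nrm_sq (0 : Basis m → ℂ)
  simp at this
  exact this

/-- **The hybrid argument.** If every gate acts nearly in the same way with `U` and with `U'` on the
states of the run with `U`, then the final states are near each other. -/
theorem hybrid (A : Oracle) (U U' : UOr) {ε : ℝ} : ∀ (C : List Gate) (ψ : Basis m → ℂ),
    (∀ (C₁ : List Gate) (g : Gate) (C₂ : List Gate), C = C₁ ++ g :: C₂ →
      nrm (g.act A U' (run A U C₁ ψ) - g.act A U (run A U C₁ ψ)) ≤ ε) →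
    nrm (run A U' C ψ - run A U C ψ) ≤ C.length * ε := by
  intro C
  induction C with
  | nil =>
    intro ψ _
    have : run A U' [] ψ - run A U [] ψ = 0 := by simp [run]
    rw [this, nrm_zero]
    simp
  | cons g C ih =>
    intro ψ h
    have e1 : run A U' (g :: C) ψ - run A U (g :: C) ψ =
        (run A U' C (g.act A U' ψ - g.act A U ψ)) +
        (run A U' C (g.act A U ψ) - run A U C (g.act A U ψ)) := by
      simp only [run]
      rw [run_sub]
      abel
    have h1 := h [] g C rfl
    have h2 := ih (g.act A U ψ) fun C₁ g' C₂ hC => by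
      have := h (g :: C₁) g' C₂ (by rw [hC]; rfl)
      exact this
    rw [e1]
    refine (nrm_add_le _ _).trans ?_
    rw [nrm_run, List.length_cons]
    push_cast
    simp only [run] at h1
    linarith

/-- the lists in the circuit are not longer than `B` -/
def Short (B : ℕ) (C : List Gate) : Prop :=
  (∀ l r, Gate.std (.query l r) ∈ C → l.length ≤ B) ∧
    (∀ b c l, Gate.uni b c l ∈ C → l.length ≤ B)

theorem Short.left {B : ℕ} {C₁ C₂ : List Gate} (h : Short B (C₁ ++ C₂)) : Short B C₁ :=
  ⟨fun l r hl => h.1 l r (List.mem_append_left _ hl),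
    fun b c l hl => h.2 b c l (List.mem_append_left _ hl)⟩

theorem op_congr {U U' : UOr} {k : ℕ} (h : U.mat k = U'.mat k) (b : Bool) :
    U.op b k = U'.op b k := by
  unfold UOr.op
  rw [h]

/-- **The gates depend on the oracles up to the length of the questions only.** -/
theorem act_congr {B : ℕ} {A A' : Oracle} {U U' : UOr}
    (h : ∀ y : List Bool, y.length ≤ B → A y = A' y) (hU : ∀ k ≤ B, U.mat k = U'.mat k)
    (g : Gate) (hg : (∀ l r, g = .std (.query l r) → l.length ≤ B) ∧
      (∀ b c l, g = .uni b c l → l.length ≤ B)) (ψ : Basis m → ℂ) :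
    g.act A U ψ = g.act A' U' ψ := by
  cases g with
  | std g =>
    exact Pool.Agent.H9x.Q.act_congr h g (fun l r hl => hg.1 l r (by rw [hl])) ψ
  | uni b c l =>
    funext z
    simp only [Gate.act]
    rw [op_congr (hU _ (hg.2 b c l rfl)) b]

theorem run_congr {B : ℕ} {A A' : Oracle} {U U' : UOr}
    (h : ∀ y : List Bool, y.length ≤ B → A y = A' y) (hU : ∀ k ≤ B, U.mat k = U'.mat k)
    (C : List Gate) (hC : Short B C) : ∀ ψ : Basis m → ℂ, run A U C ψ = run A' U' C ψ := by
  induction C with
  | nil => intro ψ; rfl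
  | cons g C ih =>
    intro ψ
    simp only [run]
    rw [act_congr h hU g ⟨fun l r hl => hC.1 l r (by rw [hl]; simp),
      fun b c l hl => hC.2 b c l (by rw [hl]; simp)⟩ ψ]
    exact ih ⟨fun l r hl => hC.1 l r (List.mem_cons_of_mem _ hl),
      fun b c l hl => hC.2 b c l (List.mem_cons_of_mem _ hl)⟩ _

theorem acc_congr {F : Verifier} {x : List Bool} {B : ℕ} (hF : Short B (F.circ x.length))
    {A A' : Oracle} {U U' : UOr}
    (h : ∀ y : List Bool, y.length ≤ B → A y = A' y) (hU : ∀ k ≤ B, U.mat k = U'.mat k)
    (φ : Basis (F.wit.eval x.length) → ℂ) : F.acc A U x φ = F.acc A' U' x φ := by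
  unfold Verifier.acc
  rw [run_congr h hU _ hF]

/-- **The circuits of a verifier have polynomial size.** -/
theorem Verifier.size (F : Verifier) : ∃ P : Polynomial ℕ, ∀ n,
    (F.circ n).length ≤ P.eval n ∧ Short (P.eval n) (F.circ n) := by
  obtain ⟨p, hp⟩ := (poly_of_polyTime F.poly).sz_le
  refine ⟨p.comp (Polynomial.C 4 * Polynomial.X + Polynomial.C 1), fun n => ?_⟩
  have h1 : sz (F.circ n) ≤ (p.comp (Polynomial.C 4 * Polynomial.X + Polynomial.C 1)).eval n := by
    have h2 := hp (List.replicate n true)
    have h3 := sz_listBool_ge (bits (F.circ (List.replicate n true).length))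
    rw [bits_length] at h3
    have h4 := eval_mono p (sz_listBool_le (List.replicate n true))
    rw [List.length_replicate] at h2 h3 h4
    simp only [Polynomial.eval_comp, Polynomial.eval_add, Polynomial.eval_mul, Polynomial.eval_C,
      Polynomial.eval_X]
    omega
  refine ⟨(length_lt_sz _).le.trans h1, fun l r h => ?_, fun b c l h => ?_⟩
  · have h5 : sz (Gate.std (.query l r)) < sz (F.circ n) := sz_le_of_mem h
    have h7 : sz l < sz (Gate.std (.query l r)) := by
      show sz l < sz (Gate.std (.query l r)).data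
      simp only [Gate.data, sz_inl]
      have : sz l < sz (Pool.Agent.H9x.Q.Gate.query l r) := by
        show sz l < sz (Pool.Agent.H9x.Q.Gate.query l r).data
        simp only [Pool.Agent.H9x.Q.Gate.data, sz_inr, sz_pair]
        omega
      omega
    have h8 := length_lt_sz l
    omega
  · have h5 : sz (Gate.uni b c l) < sz (F.circ n) := sz_le_of_mem h
    have h7 : sz l < sz (Gate.uni b c l) := by
      show sz l < sz (Gate.uni b c l).data
      simp only [Gate.data, sz_inr, sz_pair]
      omega
    have h8 := length_lt_sz l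
    omega

instance Verifier.countable : Countable Verifier := by
  have h1 : Countable {D : List Bool → List Bool | PolyTime D} := countable_polyTime.to_subtype
  have h2 := CC.poly_countable
  let G : Verifier → {D : List Bool → List Bool | PolyTime D} × Polynomial ℕ × Polynomial ℕ :=
    fun F => (⟨_, F.poly⟩, F.wit, F.anc)
  have hG : Function.Injective G := by
    intro F F' h
    obtain ⟨c, p, w, a⟩ := F
    obtain ⟨c', p', w', a'⟩ := F'
    simp only [G, Prod.mk.injEq, Subtype.mk.injEq] at h
    obtain ⟨h1, rfl, rfl⟩ := h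
    have : c = c' := by
      funext n
      have h3 := congrFun h1 (List.replicate n true)
      simp only [List.length_replicate] at h3
      exact bits_injective h3
    subst this
    rfl
  exact hG.countable

/-- the verifier as a verifier with self-inverse unitary oracle, without the circuits -/
noncomputable def Verifier.sh (F : Verifier) : Pool.Agent.H10x.QW.Verifier where
  circ _ := []
  poly := polyTime_bits (NPC.Poly.const [])
  wit := F.wit
  anc := F.anc

theorem nrm_start (F : Verifier) (x : List Bool) {φ : Basis (F.wit.eval x.length) → ℂ}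
    (h : IsState φ) : nrm (F.start x φ) = 1 := Pool.Agent.H10x.QW.nrm_start F.sh x h

/-- the difference of the acceptance probabilities -/
theorem acc_diff (F : Verifier) (A : Oracle) (U U' : UOr) (x : List Bool)
    {φ : Basis (F.wit.eval x.length) → ℂ} (hφ : IsState φ) {ε : ℝ}
    (h : ∀ (C₁ : List Gate) (g : Gate) (C₂ : List Gate), F.circ x.length = C₁ ++ g :: C₂ →
      nrm (g.act A U' (run A U C₁ (F.start x φ)) - g.act A U (run A U C₁ (F.start x φ))) ≤ ε) :
    |F.acc A U' x φ - F.acc A U x φ| ≤ 2 * ((F.circ x.length).length * ε) := by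
  have hn := nrm_start F x hφ
  have h1 := Pool.Agent.H10x.QW.prob_diff (fun z => bit z x.length)
    (u := run A U' (F.circ x.length) (F.start x φ))
    (v := run A U (F.circ x.length) (F.start x φ))
    (by rw [nrm_run, hn]) (by rw [nrm_run, hn])
  have h2 := hybrid A U U' (F.circ x.length) (F.start x φ) h
  unfold Verifier.acc
  linarith

end Pool.Agent.Helper11x.PT
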